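import Pool.Agent.helper53.ORE.Spec

set_option autoImplicit false

namespace Pool.Agent.ORE

open Module Pool.Agent.GS

theorem MN_pow {F V : Type} [Field F] [AddCommGroup V] [Module F V] {Q : QuadraticForm F V}
    {y : Equiv.Perm V} {ψ : F ≃+* F} {ν : F} (hy : QSim Q y ψ ν) (j : ℕ) :
    ∃ (ψ' : F ≃+* F) (ν' : F), QSim Q (y ^ j) ψ' ν' := by
  induction j with
  | zero =>
    refine ⟨RingEquiv.refl F, 1, one_ne_zero, fun _ _ => rfl, fun _ _ => rfl, fun v => ?_⟩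
    rw [pow_zero, one_mul]
    rfl
  | succ j ih =>
    obtain ⟨ψ', ν', h⟩ := ih
    refine ⟨ψ.trans ψ', ν' * ψ' ν, mul_ne_zero h.ne ((map_ne_zero ψ').2 hy.ne), ?_, ?_, ?_⟩
    · intro u v
      rw [pow_succ, Equiv.Perm.mul_apply, Equiv.Perm.mul_apply, Equiv.Perm.mul_apply, hy.add,
        h.add]
    · intro c v
      rw [pow_succ, Equiv.Perm.mul_apply, Equiv.Perm.mul_apply, hy.smul, h.smul]
      rfl
    · intro v
      rw [pow_succ, Equiv.Perm.mul_apply, h.form, hy.form, map_mul, mul_assoc]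
      rfl

theorem MN (sc : SCL_stmt) (ml : MPL_stmt) (ms : MPS_stmt) (po : GS.PO_stmt) : MN_stmt := by
  intro F V _ _ _ _ _ Q h2 hN hn y ψ ν hy hns r hr hr2 hk
  obtain ⟨k, hk, hk1, hkr⟩ := hk
  obtain ⟨j, l, κ, _, _, hl, _, hns', hκ, hyl⟩ := po (pb Q) y ψ ν hy.sim hns
  obtain ⟨ψ', ν', hy'⟩ := MN_pow hy j
  by_cases hψ : ∃ x, ψ' x ≠ x
  · obtain ⟨z, hz, hG, hS⟩ := ms Q h2 hN hn (y ^ j) ψ' ν' hy' hψ l κ hl hκ hyl k (OmQ_le Q hk)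
      r hr hr2 hkr hk1
    exact ⟨z, hz, hG.of_pow j, hS⟩
  · have hψ' : ψ' = RingEquiv.refl F := by
      ext x
      by_contra hx
      exact hψ ⟨x, hx⟩
    rw [hψ'] at hy'
    obtain ⟨y₁, hy₁, hy₁l, hy₁1, hG₁⟩ := sc Q h2 hN hn (y ^ j) ν' hy' hns' l κ hl hyl
    obtain ⟨z, hz, hG, hS⟩ := ml Q h2 hN hn y₁ hy₁ l hl hy₁l hy₁1 k (OmQ_le Q hk) r hr hr2
      hkr hk1
    exact ⟨z, hz, (hG₁ _ _ hG).of_pow j, hS⟩

end Pool.Agent.ORE
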