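import Pool.Agent.helper53.ORE.Spec

set_option autoImplicit false

namespace Pool.Agent.ORE

open Module Pool.Agent.GS

/-- A prime different from 2 and 3 is at least 5. -/
theorem MPL_five {r : ℕ} (hr : r.Prime) (h2 : r ≠ 2) (h3 : r ≠ 3) : 5 ≤ r := by
  have h := hr.two_le
  by_contra h5
  have h4 : r = 4 := by omega
  rw [h4] at hr
  revert hr
  decide

theorem MPL_m {m : ℕ} (h0 : m ≠ 0) (h1 : m ≠ 1) :
    (∃ d n : ℕ, m = d * n ∧ Odd n ∧ 3 ≤ n) ∨ ∃ a : ℕ, 1 ≤ a ∧ m = 2 ^ a := by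
  obtain ⟨a, n, hn, hmn⟩ := Nat.exists_eq_two_pow_mul_odd h0
  by_cases h3 : 3 ≤ n
  · exact Or.inl ⟨2 ^ a, n, hmn, hn, h3⟩
  · right
    have hn1 : n = 1 := by
      obtain ⟨t, ht⟩ := hn
      omega
    rw [hn1, mul_one] at hmn
    refine ⟨a, ?_, hmn⟩
    rcases Nat.eq_zero_or_pos a with h | h
    · rw [h, pow_zero] at hmn
      exact absurd hmn h1
    · exact h

theorem MPL (tv : TVW_stmt) (atv : ATV_stmt) (ri : R3I_stmt) (ro : R3O_stmt) (kd : KDQ_stmt)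
    (dr : DRK_stmt) (m1 : M1_stmt) (dz : DZ_stmt) (fer : FER_stmt) (ez : EZ_stmt)
    (lr : LRL_stmt) (blc : BLC_stmt) (aev : AEV_stmt) : MPL_stmt := by
  intro F V _ _ _ _ _ Q h2 hN hn y hy l hl hyl hy1 k hk r hr hr2 hkr hk1
  obtain ⟨K, iK, iA, iF, iD, σ, j, hD, hm⟩ := kd Q h2 hN k hk r hr hr2 hkr hk1
  have hr3 : 3 ≤ r := by
    have := hr.two_le
    omega
  by_cases ht : ∃ a, y = rq Q a
  · obtain ⟨a, ha⟩ := ht
    have hQa : Q a ≠ 0 := by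
      intro h0
      apply hy1
      rw [ha]
      unfold rq
      rw [dif_neg]
      rintro ⟨_, h⟩
      exact h h0
    have hG1 : Gq Q y 1 (rq Q a) := by
      rw [← ha]
      exact Gq.self y
    obtain ⟨h, hh, hG, hS⟩ := atv Q h2 k hk σ j hD r hr hr2 hkr y
      (tv Q h2 hN hn y 1 a hQa hG1)
    exact ⟨h, hh, hG.mono (by omega), hS⟩
  have ht' : ∀ a, y ≠ rq Q a := fun a ha => ht ⟨a, ha⟩
  by_cases h3 : r = 3
  · rw [h3]
    by_cases hl2 : l = 2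
    · exact ri Q h2 hN hn y hy hy1 (by rw [← pow_two, ← hl2]; exact hyl)
    · exact ro Q h2 hN hn y hy hy1 l hl hl2 hyl
  have hr5 : 5 ≤ r := MPL_five hr hr2 h3
  have hL : Bl Q y 2 := lr Q h2 hN hn y hy l hl hyl hy1 ht'
  have hm0 : finrank F K ≠ 0 := by
    have : 0 < finrank F K := finrank_pos
    omega
  by_cases hm1 : finrank F K = 1
  · obtain ⟨s, hs, hs'⟩ := dr Q h2 k hk σ j hD r hr hr2 hkr hm1
    obtain ⟨h, hh, hG, hS⟩ := m1 Q h2 hN hn y hL r s hs hs'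
    exact ⟨h, hh, hG.mono (by omega), hS⟩
  rcases MPL_m hm0 hm1 with ⟨d, n, hmn, hno, hn3⟩ | ⟨a, ha1, hma⟩
  · obtain ⟨h, hh, hG, hS⟩ := dz Q h2 hN hn k hk σ j hD r hr hr2 hkr d n hmn hno hn3 y hL
    exact ⟨h, hh, hG.mono (by omega), hS⟩
  · rcases fer Q h2 k hk σ j hD r hr hr2 hkr a ha1 hma with h5 | h4
    · rw [h5]
      exact ez Q h2 hN hn y hy l hl hyl hy1 ht'
    · have he : Even (finrank F K) := by
        rw [hma]
        exact (Nat.even_pow.2 ⟨even_two, by omega⟩)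
      obtain ⟨h, hh, hG, hS⟩ := aev Q h2 k hk σ j hD r hr hr2 hkr y (2 * 2)
        (blc Q h2 hN hn y 2 hL) he
      exact ⟨h, hh, hG.mono (by omega), hS⟩

end Pool.Agent.ORE
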