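import Pool.Agent.helper53.ORE.Spec

set_option autoImplicit false

namespace Pool.Agent.ORE

open Module Pool.Agent.GS

theorem MPS_five {r : ℕ} (hr : r.Prime) (h2 : r ≠ 2) (h3 : r ≠ 3) : 5 ≤ r := by
  have h := hr.two_le
  by_contra h5
  have h4 : r = 4 := by omega
  rw [h4] at hr
  revert hr
  decide

theorem MPS_m {m : ℕ} (h0 : m ≠ 0) (h1 : m ≠ 1) :
    (∃ d n : ℕ, m = d * n ∧ Odd n ∧ 3 ≤ n) ∨ ∃ a : ℕ, 1 ≤ a ∧ m = 2 ^ a := by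
  obtain ⟨a, n, hn, hmn⟩ := Nat.exists_eq_two_pow_mul_odd h0
  by_cases h3 : 3 ≤ n
  · exact Or.inl ⟨2 ^ a, n, hmn, hn, h3⟩
  · right
    have hn1 : n = 1 := by
      obtain ⟨t, ht⟩ := hn
      omega
    rw [hn1, mul_one] at hmn
    refine ⟨a, ?_, hmn⟩
    rcases Nat.eq_zero_or_pos a with h | h
    · rw [h, pow_zero] at hmn
      exact absurd hmn h1
    · exact h

theorem MPS (dq : DQ2_stmt) (sl : SLQ_stmt) (s3 : S3Q_stmt) (kd : KDQ_stmt) (dr : DRK_stmt)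
    (m1 : M1_stmt) (dz : DZ_stmt) (aev : AEV_stmt) : MPS_stmt := by
  intro F V _ _ _ _ _ Q h2 hN hn y ψ ν hy hψ l κ hl hκ hyl k hk r hr hr2 hkr hk1
  obtain ⟨hD, hψl⟩ := dq Q h2 hN hn y ψ ν hy hψ l κ hl hκ hyl
  by_cases h3 : r = 3
  · rw [h3]
    exact s3 Q h2 hN hn y ψ ν hy hψ hD l hl hψl
  have hr5 : 5 ≤ r := MPS_five hr hr2 h3
  obtain ⟨hL, hB⟩ := sl Q h2 hN hn y ψ ν hy hψ hD
  obtain ⟨K, iK, iA, iF, iD, σ, j, hDq, hm⟩ := kd Q h2 hN k hk r hr hr2 hkr hk1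
  have hm0 : finrank F K ≠ 0 := by
    have : 0 < finrank F K := finrank_pos
    omega
  by_cases hm1 : finrank F K = 1
  · obtain ⟨s, hs, hs'⟩ := dr Q h2 k hk σ j hDq r hr hr2 hkr hm1
    obtain ⟨h, hh, hG, hS⟩ := m1 Q h2 hN hn y hL r s hs hs'
    exact ⟨h, hh, hG.mono (by omega), hS⟩
  rcases MPS_m hm0 hm1 with ⟨d, n, hmn, hno, hn3⟩ | ⟨a, ha1, hma⟩
  · obtain ⟨h, hh, hG, hS⟩ := dz Q h2 hN hn k hk σ j hDq r hr hr2 hkr d n hmn hno hn3 y hL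
    exact ⟨h, hh, hG.mono (by omega), hS⟩
  · have he : Even (finrank F K) := by
      rw [hma]
      exact (Nat.even_pow.2 ⟨even_two, by omega⟩)
    obtain ⟨h, hh, hG, hS⟩ := aev Q h2 k hk σ j hDq r hr hr2 hkr y 2 hB he
    exact ⟨h, hh, hG.mono (by omega), hS⟩

end Pool.Agent.ORE
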