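import Pool.Agent.helper53.ORE.Spec

set_option autoImplicit false

namespace Pool.Agent.ORE

open Module Pool.Agent.GS

theorem PEW_sqrt {F : Type} [Field F] [Finite F] (h2 : (2 : F) = 0) {a : F} (ha : a ≠ 0) :
    ∃ s : F, s ≠ 0 ∧ s ^ 2 * a = 1 := by
  have : CharP F 2 := charP2 h2
  obtain ⟨s, hs⟩ := FiniteField.isSquare_of_char_two (ringChar.eq F 2) a⁻¹
  refine ⟨s, ?_, ?_⟩
  · rintro rfl
    rw [mul_zero] at hs
    exact inv_ne_zero ha hs
  · rw [pow_two, ← hs, inv_mul_cancel₀ ha]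

theorem PEW (w2 : W2_stmt) : PEW_stmt := by
  intro F V _ _ _ _ _ Q h2 hN hn y c
  have key : ∀ a b a' b' : V, LinearIndependent F ![a, b] → LinearIndependent F ![a', b'] →
      Q a = 1 → Q b = 1 → Q a' = 1 → Q b' = 1 → pb Q a b = pb Q a' b' →
      Gq Q y c (rq Q a * rq Q b) → Gq Q y c (rq Q a' * rq Q b') := by
    intro a b a' b' hab hab' ha hb ha' hb' hB hG
    obtain ⟨g, hg, hga, hgb⟩ := w2 Q h2 hN hn a b a' b' hab hab' (by rw [ha, ha'])
      (by rw [hb, hb']) hB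
    have h1 := hG.conj hg
    have hg' := OmQ_le Q hg
    have e : g * (rq Q a * rq Q b) * g⁻¹ = (g * rq Q a * g⁻¹) * (g * rq Q b * g⁻¹) := by group
    rw [e, rq_conj_mem hg', rq_conj_mem hg', hga, hgb] at h1
    exact h1
  refine ⟨key, ?_⟩
  intro a b hab ha hb hB hG x hx hlx
  obtain ⟨s, hs, hsa⟩ := PEW_sqrt h2 ha
  obtain ⟨t, ht, htb⟩ := PEW_sqrt h2 hb
  have h1 : Q (s • a) = 1 := by rw [Q_smul, hsa]
  have h3 : Q (t • b) = 1 := by rw [Q_smul, htb]
  have hl : LinearIndependent F ![s • a, t • b] := by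
    rw [LinearIndependent.pair_iff] at hab ⊢
    intro p q hpq
    rw [smul_smul, smul_smul] at hpq
    obtain ⟨h4, h5⟩ := hab _ _ hpq
    exact ⟨(mul_eq_zero.1 h4).resolve_right hs, (mul_eq_zero.1 h5).resolve_right ht⟩
  have e : x = ![x 0, x 1] := by
    ext i
    fin_cases i <;> rfl
  have hx' : Oq Q ![x 0, x 1] := by rw [← e]; exact hx
  rw [e] at hlx ⊢
  have h01 : pb Q (x 0) (x 1) = 0 := hx.o 0 1 (by decide)
  rw [fq_two h2 (hx.n 0) (hx.n 1) h01]
  refine key (s • a) (t • b) (x 0) (x 1) hl hlx h1 h3 (hx.n 0) (hx.n 1) ?_ ?_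
  · rw [map_smul, map_smul, LinearMap.smul_apply, hB, smul_zero, smul_zero, h01]
  · rw [rq_smul hs, rq_smul ht]
    exact hG

end Pool.Agent.ORE
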