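import Pool.Agent.helper53.ORE.Spec

set_option autoImplicit false

namespace Pool.Agent.ORE

open Module Pool.Agent.GS

theorem S3Q_ns {F V : Type} [Field F] [AddCommGroup V] [Module F V] (h2 : (2 : F) = 0)
    {z : Equiv.Perm V} (hz : Lin F z) {v w : V} (hli : LinearIndependent F ![v, w]) {a b : F}
    (hab : a * b = 1) (h1 : z v = v + b • w) (h3 : z w = a • v) : NS F 3 z := by
  have hb : b ≠ 0 := by
    rintro rfl
    rw [mul_zero] at hab
    exact zero_ne_one hab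
  have hp := LinearIndependent.pair_iff.1 hli
  have e2 : (z ^ 2) v = b • w := by
    rw [pow_two, Equiv.Perm.mul_apply, h1, hz.1, hz.2, h1, h3, smul_smul, mul_comm b a, hab,
      one_smul]
    have := addV h2 v
    calc v + b • w + v = (v + v) + b • w := by abel
      _ = b • w := by rw [this, zero_add]
  have e3 : (z ^ 3) v = v := by
    rw [pow_succ', Equiv.Perm.mul_apply, e2, hz.2, h3, smul_smul, mul_comm b a, hab, one_smul]
  have e3t : ∀ t : ℕ, (z ^ (3 * t)) v = v := by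
    intro t
    induction t with
    | zero => rfl
    | succ t ih => rw [Nat.mul_succ, pow_add, Equiv.Perm.mul_apply, e3, ih]
  intro i c hc
  obtain ⟨t, s, hs, hi⟩ : ∃ t s : ℕ, s < 3 ∧ i = s + 3 * t :=
    ⟨i / 3, i % 3, Nat.mod_lt _ (by norm_num), (Nat.mod_add_div i 3).symm⟩
  have h4 : (z ^ s) v = c • v := by
    have := hc v
    rw [hi, pow_add, Equiv.Perm.mul_apply, e3t] at this
    exact this
  have hs' : s = 0 ∨ s = 1 ∨ s = 2 := by omega
  rcases hs' with rfl | rfl | rfl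
  · rw [zero_add] at hi
    exact ⟨t, hi⟩
  · exfalso
    rw [pow_one, h1] at h4
    have h5 : (1 - c) • v + b • w = 0 := by
      rw [sub_smul, one_smul, sub_add_eq_add_sub, h4, sub_self]
    exact hb (hp _ _ h5).2
  · exfalso
    rw [e2] at h4
    have h5 : (-c) • v + b • w = 0 := by
      rw [neg_smul, h4, neg_add_cancel]
    exact hb (hp _ _ h5).2

theorem S3Q (sg : SGQ_stmt) (nrx : ORT.NRX_stmt) : S3Q_stmt := by
  intro F V _ _ _ _ _ Q h2 hN hn y ψ ν hy hψ hD l hl hψl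
  obtain ⟨lam, μ, e, f, hlam, hμ, hyef, hQ, hef⟩ := hD
  have hν := hy.ne
  obtain ⟨κ, hκ⟩ := hψ
  have hω : ψ κ + κ ≠ 0 := fun h => hκ (eq_of_add2 h2 h)
  obtain ⟨X, hX⟩ : ∃ X, X * ψ X * (ψ κ + κ) ^ 2 = 1 := by
    obtain ⟨n1, n2⟩ := nrx ψ l hl ⟨κ, hκ⟩ hψl
    by_cases h : l = 2
    · have hf : ψ (ψ κ) = κ := by
        have := hψl κ
        rw [h] at this
        exact this
      have hw : ψ (((ψ κ + κ) ^ 2)⁻¹) = ((ψ κ + κ) ^ 2)⁻¹ := by
        rw [map_inv₀, map_pow, map_add, hf, add_comm]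
      obtain ⟨X, hX⟩ := n1 h _ (inv_ne_zero (pow_ne_zero 2 hω)) hw
      exact ⟨X, by rw [hX, inv_mul_cancel₀ (pow_ne_zero 2 hω)]⟩
    · obtain ⟨X, hX⟩ := n2 h _ (inv_ne_zero hω)
      refine ⟨X, ?_⟩
      rw [hX, inv_pow, inv_mul_cancel₀ (pow_ne_zero 2 hω)]
  -- the values of the form
  have ee : ∀ i j, pb Q (e i) (e j) = 0 := fun i j => (hef i j).1
  have ff : ∀ i j, pb Q (f i) (f j) = 0 := fun i j => (hef i j).2.1
  have ef00 : pb Q (e 0) (f 0) = μ := by rw [(hef 0 0).2.2, if_pos rfl]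
  have ef11 : pb Q (e 1) (f 1) = μ := by rw [(hef 1 1).2.2, if_pos rfl]
  have ef01 : pb Q (e 0) (f 1) = 0 := by rw [(hef 0 1).2.2, if_neg (by decide)]
  have ef10 : pb Q (e 1) (f 0) = 0 := by rw [(hef 1 0).2.2, if_neg (by decide)]
  have ye : ∀ i, y (e i) = lam⁻¹ • e i := fun i => by
    have := (hyef i).1
    rw [← this, smul_smul, inv_mul_cancel₀ hlam, one_smul, this]
  have yf : ∀ i, y (f i) = lam⁻¹ • f i := fun i => by
    have := (hyef i).2
    rw [← this, smul_smul, inv_mul_cancel₀ hlam, one_smul, this]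
  have hmu : lam⁻¹ * (lam⁻¹ * μ) = ν * ψ μ := by
    have h1 := hy.pb (e 0) (f 0)
    rw [ye, yf, ef00] at h1
    simp only [map_smul, LinearMap.smul_apply, smul_eq_mul, ef00] at h1
    exact h1
  obtain ⟨v, hv⟩ : ∃ v, v = e 0 + κ • e 1 := ⟨_, rfl⟩
  obtain ⟨v₁, hv₁⟩ : ∃ v₁, v₁ = e 0 + ψ κ • e 1 := ⟨_, rfl⟩
  obtain ⟨d, hd⟩ : ∃ d, d = (X / μ) • (f 1 + κ • f 0) := ⟨_, rfl⟩
  obtain ⟨d₁, hd₁⟩ : ∃ d₁, d₁ = (ψ X / ψ μ) • (f 1 + ψ κ • f 0) := ⟨_, rfl⟩
  have yv : y v = lam⁻¹ • v₁ := by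
    rw [hv, hy.add, hy.smul, ye, ye, hv₁, smul_add, smul_comm (ψ κ)]
  have yd : y d = lam⁻¹ • d₁ := by
    rw [hd, hy.smul, hy.add, hy.smul, yf, yf, hd₁, map_div₀, smul_comm (ψ κ), ← smul_add,
      smul_comm lam⁻¹]
  have Qv : Q v = 0 := by
    rw [hv, Q_add, Q_smul, (hQ 0).1, (hQ 1).1, map_smul, ee, smul_zero]
    ring
  have Qd : Q d = 0 := by
    rw [hd, Q_smul, Q_add, Q_smul, (hQ 0).2, (hQ 1).2, map_smul, ff, smul_zero]
    ring
  have Bvv₁ : pb Q v v₁ = 0 := by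
    rw [hv, hv₁]
    simp only [map_add, map_smul, LinearMap.add_apply, LinearMap.smul_apply, smul_eq_mul, ee,
      mul_zero, add_zero]
  have Bvd : pb Q v d = 0 := by
    rw [hv, hd]
    simp only [map_add, map_smul, LinearMap.add_apply, LinearMap.smul_apply,
      smul_eq_mul, ef00, ef11, ef01, ef10]
    linear_combination (X / μ * κ * μ) * h2
  have Bv₁d₁ : pb Q v₁ d₁ = 0 := by
    rw [hv₁, hd₁]
    simp only [map_add, map_smul, LinearMap.add_apply, LinearMap.smul_apply,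
      smul_eq_mul, ef00, ef11, ef01, ef10]
    linear_combination (ψ X / ψ μ * ψ κ * μ) * h2
  have Bv₁d : pb Q v₁ d = X * (ψ κ + κ) := by
    rw [hv₁, hd]
    simp only [map_add, map_smul, LinearMap.add_apply, LinearMap.smul_apply,
      smul_eq_mul, ef00, ef11, ef01, ef10]
    field_simp
    ring
  have hψμ : ψ μ ≠ 0 := (map_ne_zero ψ).2 hμ
  have Bvd₁ : ψ μ * pb Q v d₁ = μ * (ψ X * (ψ κ + κ)) := by
    rw [hv, hd₁]
    simp only [map_add, map_smul, LinearMap.add_apply, LinearMap.smul_apply,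
      smul_eq_mul, ef00, ef11, ef01, ef10]
    field_simp
    ring
  -- the elements
  have Qyv : Q (y v) = 0 := by rw [hy.form, Qv, map_zero, mul_zero]
  have Byvd : pb Q (y v) (ν⁻¹ • y d) = 0 := by
    rw [map_smul, hy.pb, Bvd, map_zero, mul_zero, smul_zero]
  have hc : y * sq Q v d * y⁻¹ * (sq Q v d)⁻¹ = sq Q (y v) (ν⁻¹ • y d) * sq Q v d := by
    rw [sq_conj h2 hy Qv Bvd, sq_inv]
  have a1 : sq Q v d v = v := by
    rw [sq_apply h2 Qv Bvd, pb_self2 h2, Bvd]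
    simp
  have a2 : sq Q v d v₁ = v₁ + (X * (ψ κ + κ)) • v := by
    rw [sq_apply h2 Qv Bvd, pb_symm Q v₁ v, Bvv₁, Bv₁d]
    simp
  have a3 : sq Q (y v) (ν⁻¹ • y d) v₁ = v₁ := by
    rw [sq_apply h2 Qyv Byvd, yv, yd]
    simp only [map_smul, smul_eq_mul, pb_self2 h2, Bv₁d₁, mul_zero, zero_smul, add_zero]
  have a4 : sq Q (y v) (ν⁻¹ • y d) v = v + (ψ X * (ψ κ + κ)) • v₁ := by
    rw [sq_apply h2 Qyv Byvd, yv, yd]
    simp only [map_smul, smul_eq_mul, Bvv₁, mul_zero, zero_mul, zero_smul, add_zero, smul_smul]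
    congr 2
    have h5 : ν * (ψ μ * (ν⁻¹ * lam⁻¹ * pb Q v d₁ * lam⁻¹)) =
        ν * (ψ μ * (ψ X * (ψ κ + κ))) := by
      have h6 : ν * (ψ μ * (ν⁻¹ * lam⁻¹ * pb Q v d₁ * lam⁻¹)) =
          lam⁻¹ * (lam⁻¹ * (ψ μ * pb Q v d₁)) := by
        field_simp
      rw [h6, Bvd₁, ← mul_assoc ν, ← hmu]
      ring
    exact mul_left_cancel₀ hψμ (mul_left_cancel₀ hν h5)
  have hs1 : sq Q v d ∈ OmQ Q := sg Q h2 hN hn v d Qv Bvd
  have hs2 : sq Q (y v) (ν⁻¹ • y d) ∈ OmQ Q := sg Q h2 hN hn _ _ Qyv Byvd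
  refine ⟨sq Q (y v) (ν⁻¹ • y d) * sq Q v d, (OmQ Q).mul_mem hs2 hs1, ?_, ?_⟩
  · rw [← hc]
    exact Gq.comm hs1
  · have hlin : Lin F (sq Q (y v) (ν⁻¹ • y d)) := (sq_mem Q _ _).1
    have hlin' : Lin F (sq Q (y v) (ν⁻¹ • y d) * sq Q v d) := hlin.mul (sq_mem Q _ _).1
    have hli : LinearIndependent F ![v, v₁] := by
      rw [LinearIndependent.pair_iff]
      intro s t hst
      have g0 : (s + t) * μ = 0 := by
        have := congrArg (fun z => pb Q z (f 0)) hst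
        rw [hv, hv₁] at this
        simp only [map_add, map_smul, LinearMap.add_apply, LinearMap.smul_apply, smul_eq_mul,
          ef00, ef10, mul_zero, add_zero, map_zero, LinearMap.zero_apply] at this
        rw [add_mul]
        exact this
      have g1 : (s * κ + t * ψ κ) * μ = 0 := by
        have := congrArg (fun z => pb Q z (f 1)) hst
        rw [hv, hv₁] at this
        simp only [map_add, map_smul, LinearMap.add_apply, LinearMap.smul_apply, smul_eq_mul,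
          ef01, ef11, zero_add, map_zero, LinearMap.zero_apply] at this
        rw [add_mul, mul_assoc, mul_assoc]
        exact this
      have g2 : s + t = 0 := (mul_eq_zero.1 g0).resolve_right hμ
      have g3 : s * κ + t * ψ κ = 0 := (mul_eq_zero.1 g1).resolve_right hμ
      have g4 : t * (ψ κ + κ) = 0 := by
        have : s = t := eq_of_add2 h2 g2
        rw [this] at g3
        linear_combination g3
      have ht : t = 0 := (mul_eq_zero.1 g4).resolve_right hω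
      refine ⟨?_, ht⟩
      rw [ht, add_zero] at g2
      exact g2
    have hab : X * (ψ κ + κ) * (ψ X * (ψ κ + κ)) = 1 := by rw [← hX]; ring
    refine S3Q_ns h2 hlin' hli hab ?_ ?_
    · rw [Equiv.Perm.mul_apply, a1, a4]
    · rw [Equiv.Perm.mul_apply, a2, hlin.1, hlin.2, a3, a4, smul_add, smul_smul, hab, one_smul]
      have := addV h2 v₁
      calc v₁ + ((X * (ψ κ + κ)) • v + v₁) = (v₁ + v₁) + (X * (ψ κ + κ)) • v := by abel
        _ = (X * (ψ κ + κ)) • v := by rw [this, zero_add]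

end Pool.Agent.ORE
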