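import Pool.Agent.helper53.ORE.Spec

set_option autoImplicit false

namespace Pool.Agent.ORE

open Module Pool.Agent.GS

theorem SCL_inv {F V : Type} [Field F] [AddCommGroup V] [Module F V] {g : Equiv.Perm V}
    (hg : Lin F g) : Lin F g⁻¹ := by
  refine ⟨fun u v => ?_, fun c v => ?_⟩
  · apply g.injective
    rw [hg.1, pinv, pinv, pinv]
  · apply g.injective
    rw [hg.2, pinv, pinv]

theorem SCL_sc {F V : Type} [Field F] [AddCommGroup V] [Module F V] (c : Fˣ)
    {g : Equiv.Perm V} (hg : Lin F g) : Lin F (sc V c * g) := by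
  refine ⟨fun u v => ?_, fun a v => ?_⟩
  · change (c : F) • g (u + v) = (c : F) • g u + (c : F) • g v
    rw [hg.1, smul_add]
  · change (c : F) • g (a • v) = a • (c : F) • g v
    rw [hg.2, smul_comm]

/-- Scalar multiples of the generators generate the same group up to scalars. -/
theorem SCL_gen {F V : Type} [Field F] [AddCommGroup V] [Module F V] {k : ℕ}
    (g : Fin k → Equiv.Perm V) (hg : ∀ i, Lin F (g i)) {y : Equiv.Perm V} (hy : Lin F y)
    (c : Fˣ) (x : Equiv.Perm V)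
    (hx : x ∈ Subgroup.closure (Set.range fun i => g i * (sc V c * y) * (g i)⁻¹)) :
    Lin F x ∧ ∃ c' : Fˣ, sc V c' * x ∈
      Subgroup.closure (Set.range fun i => g i * y * (g i)⁻¹) := by
  induction hx using Subgroup.closure_induction with
  | mem x hx =>
    obtain ⟨i, rfl⟩ := hx
    have e : g i * (sc V c * y) * (g i)⁻¹ = sc V c * (g i * y * (g i)⁻¹) := by
      rw [← mul_assoc, sc_comm (hg i)]
      group
    have hl : Lin F (g i * y * (g i)⁻¹) := ((hg i).mul hy).mul (SCL_inv (hg i))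
    simp only [e]
    refine ⟨SCL_sc c hl, c⁻¹, ?_⟩
    rw [sc_inv, inv_mul_cancel_left]
    exact Subgroup.subset_closure ⟨i, rfl⟩
  | one =>
    refine ⟨⟨fun _ _ => rfl, fun _ _ => rfl⟩, 1, ?_⟩
    rw [sc_one, one_mul]
    exact Subgroup.one_mem _
  | mul x y _ _ hx hy =>
    obtain ⟨hx1, a, ha⟩ := hx
    obtain ⟨hy1, b, hb⟩ := hy
    refine ⟨hx1.mul hy1, a * b, ?_⟩
    have e : sc V (a * b) * (x * y) = (sc V a * x) * (sc V b * y) := by
      rw [sc_mul, mul_assoc, mul_assoc, ← mul_assoc (sc V b) x y, ← sc_comm hx1, mul_assoc]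
    rw [e]
    exact Subgroup.mul_mem _ ha hb
  | inv x _ hx =>
    obtain ⟨hx1, a, ha⟩ := hx
    refine ⟨SCL_inv hx1, a⁻¹, ?_⟩
    have e : sc V a⁻¹ * x⁻¹ = (sc V a * x)⁻¹ := by
      rw [mul_inv_rev, sc_inv, ← sc_inv, sc_comm (SCL_inv hx1)]
    rw [e]
    exact Subgroup.inv_mem _ ha

theorem SCL : SCL_stmt := by
  intro F V _ _ _ _ _ Q h2 hN hn y ν hy hns l κ hl hyl
  have : CharP F 2 := charP2 h2
  obtain ⟨c0, hc0⟩ := FiniteField.isSquare_of_char_two (ringChar.eq F 2) ν⁻¹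
  have hν : ν ≠ 0 := hy.ne
  have hc0' : c0 ≠ 0 := by
    rintro rfl
    rw [mul_zero] at hc0
    exact inv_ne_zero hν hc0
  let c : Fˣ := Units.mk0 c0 hc0'
  have hyL : Lin F y := ⟨hy.add, fun a v => hy.smul a v⟩
  have hcy : ∀ v, (sc V c * y) v = c0 • y v := fun v => rfl
  have h1 : sc V c * y ∈ OQ Q := by
    refine ⟨⟨fun u v => ?_, fun a v => ?_⟩, fun v => ?_⟩
    · rw [hcy, hcy, hcy, hyL.1, smul_add]
    · rw [hcy, hcy, hyL.2, smul_comm]
    · rw [hcy, Q_smul, hy.form]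
      change c0 ^ 2 * (ν * Q v) = Q v
      rw [pow_two, ← hc0, ← mul_assoc, inv_mul_cancel₀ hν, one_mul]
  have hpow : ∀ (i : ℕ) (v : V), ((sc V c * y) ^ i) v = c0 ^ i • (y ^ i) v := by
    intro i
    induction i with
    | zero => intro v; simp
    | succ i ih =>
      intro v
      rw [pow_succ', Equiv.Perm.mul_apply, hcy, ih, pow_succ' y, Equiv.Perm.mul_apply, hyL.2,
        smul_smul, pow_succ']
  have hQ : ∃ v, Q v ≠ 0 := by
    by_contra h
    push Not at h
    have hz : ∀ x : V, x = 0 := by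
      intro x
      apply hN x
      intro w
      have := Q_add Q x w
      rw [h, h, h] at this
      linear_combination -this
    have : Subsingleton V := ⟨fun a b => by rw [hz a, hz b]⟩
    have : finrank F V = 0 := finrank_zero_of_subsingleton
    omega
  refine ⟨sc V c * y, h1, ?_, ?_, ?_⟩
  · obtain ⟨v, hv⟩ := hQ
    have h3 : ∀ w, ((sc V c * y) ^ l) w = (c0 ^ l * κ) • w := by
      intro w
      rw [hpow, hyl, smul_smul]
    have h4 : (c0 ^ l * κ) ^ 2 = 1 := by
      have h5 := ((OQ Q).pow_mem h1 l).2 v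
      rw [h3, Q_smul] at h5
      exact mul_right_cancel₀ hv (by rw [h5, one_mul])
    have h6 : c0 ^ l * κ = 1 := by
      have h7 : (c0 ^ l * κ - 1) ^ 2 = 0 := by linear_combination h4 - (c0 ^ l * κ - 1) * h2
      have h8 := pow_eq_zero_iff (two_ne_zero) |>.1 h7
      exact sub_eq_zero.1 h8
    ext w
    rw [h3, h6, one_smul]
    rfl
  · intro h
    have h9 : ∀ v, y v = c0⁻¹ • v := by
      intro v
      have h10 : (sc V c * y) v = v := by rw [h]; rfl
      rw [hcy] at h10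
      rw [← h10, smul_smul, inv_mul_cancel₀ hc0', one_smul]
      rw [h10]
    obtain ⟨v, hv⟩ := hns c0⁻¹
    exact hv (h9 v)
  · rintro k z ⟨g, hg, c', hc'⟩
    obtain ⟨_, c'', h⟩ := SCL_gen g (fun i => (OmQ_le Q (hg i)).1) hyL c _ hc'
    refine ⟨g, hg, c'' * c', ?_⟩
    rw [sc_mul, mul_assoc]
    exact h

end Pool.Agent.ORE
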