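import Pool.Agent.helper53.ORT.Final
import Pool.Agent.helper87.ORE.CWQ
import Pool.Agent.helper84.ORE.NSV
import Pool.Agent.helper94.ORE.MID
import Pool.Agent.helper13.ORE.ST1
import Pool.Agent.helper36.ORE.RP
import Pool.Agent.helper5.ORE.CLQ
import Pool.Agent.helper94.ORE.W2
import Pool.Agent.helper28.ORE.SGQ
import Pool.Agent.helper17.ORE.BLW
import Pool.Agent.helper53.ORE.PEW
import Pool.Agent.helper43.ORE.BLC
import Pool.Agent.helper43.ORE.KAQ
import Pool.Agent.helper36.ORE.KDQ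
import Pool.Agent.helper92.ORE.DQI
import Pool.Agent.helper61.ORE.ORD
import Pool.Agent.helper82.ORE.FER
import Pool.Agent.helper65.ORE.ONB
import Pool.Agent.helper76.ORE.ATH
import Pool.Agent.helper84.ORE.TVW
import Pool.Agent.helper6.ORE.ATV
import Pool.Agent.helper51.ORE.AEV
import Pool.Agent.helper19.ORE.DRK
import Pool.Agent.helper78.ORE.HYP
import Pool.Agent.helper16.ORE.M1
import Pool.Agent.helper28.ORE.DSB
import Pool.Agent.helper51.ORE.DHR
import Pool.Agent.helper76.ORE.DAR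
import Pool.Agent.helper16.ORE.DZE
import Pool.Agent.helper5.ORE.DPI
import Pool.Agent.helper3.ORE.DNU
import Pool.Agent.helper43.ORE.DPZ
import Pool.Agent.helper36.ORE.DBL
import Pool.Agent.helper63.ORE.DTR
import Pool.Agent.helper79.ORE.DCY
import Pool.Agent.helper70.ORE.DEL
import Pool.Agent.helper55.ORE.DSQ
import Pool.Agent.helper4.ORE.DIO
import Pool.Agent.helper99.ORE.DFX
import Pool.Agent.helper83.ORE.DPR
import Pool.Agent.helper14.ORE.DCO
import Pool.Agent.helper9.ORE.DYY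
import Pool.Agent.helper17.ORE.DNM
import Pool.Agent.helper83.ORE.DZ
import Pool.Agent.helper20.ORE.EPQ
import Pool.Agent.helper71.ORE.ESN
import Pool.Agent.helper74.ORE.ERK
import Pool.Agent.helper82.ORE.EN5
import Pool.Agent.helper49.ORE.EPH
import Pool.Agent.helper24.ORE.E2R
import Pool.Agent.helper29.ORE.ESE
import Pool.Agent.helper94.ORE.EQT
import Pool.Agent.helper40.ORE.EXZ
import Pool.Agent.helper30.ORE.EX4
import Pool.Agent.helper41.ORE.E4R
import Pool.Agent.helper53.ORE.EZ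
import Pool.Agent.helper76.ORE.QZ2
import Pool.Agent.helper22.ORE.R3A
import Pool.Agent.helper22.ORE.R3B
import Pool.Agent.helper96.ORE.R3I
import Pool.Agent.helper33.ORE.R3O
import Pool.Agent.helper52.ORE.C1
import Pool.Agent.helper65.ORE.C2
import Pool.Agent.helper34.ORE.C3
import Pool.Agent.helper41.ORE.L2
import Pool.Agent.helper20.ORE.O1
import Pool.Agent.helper41.ORE.O3
import Pool.Agent.helper61.ORE.O4
import Pool.Agent.helper45.ORE.LRL
import Pool.Agent.helper8.ORE.DQ1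
import Pool.Agent.helper10.ORE.DQ2
import Pool.Agent.helper8.ORE.SLQ
import Pool.Agent.helper53.ORE.S3Q
import Pool.Agent.helper53.ORE.SCL
import Pool.Agent.helper53.ORE.MPL
import Pool.Agent.helper53.ORE.MPS
import Pool.Agent.helper53.ORE.MN
import Pool.Agent.helper32.ORE.CNO
import Pool.Agent.helper76.ORE.FG
import Pool.Agent.helper37.ORE.PRO
import Pool.Agent.helper61.ORE.LRB
import Pool.Agent.helper65.ORE.FRO
import Pool.Agent.helper53.ORE.FIN
import Pool.Agent.helper53.ORE.ALL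

set_option autoImplicit false

namespace Pool.Agent.ORE

theorem fin_CWQ : CWQ_stmt := CWQ GS.fin_CW ORT.fin_CW2

theorem fin_NSV : NSV_stmt := NSV

theorem fin_MID : MID_stmt := MID

theorem fin_ST1 : ST1_stmt := ST1 fin_MID

theorem fin_RP : RP_stmt := RP fin_ST1

theorem fin_CLQ : CLQ_stmt := CLQ fin_RP

theorem fin_W2 : W2_stmt := W2 fin_ST1 fin_CLQ fin_NSV

theorem fin_SGQ : SGQ_stmt := SGQ fin_RP fin_NSV

theorem fin_BLW : BLW_stmt := BLW fin_W2

theorem fin_PEW : PEW_stmt := PEW fin_W2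

theorem fin_BLC : BLC_stmt := BLC fin_NSV

theorem fin_KAQ : KAQ_stmt := KAQ

theorem fin_KDQ : KDQ_stmt := KDQ fin_KAQ ORT.fin_KDP GS.fin_BF

theorem fin_DQI : DQI_stmt := DQI GS.fin_BF

theorem fin_ORD : ORD_stmt := ORD fin_DQI

theorem fin_FER : FER_stmt := FER fin_ORD

theorem fin_ONB : ONB_stmt := ONB GS.fin_BF

theorem fin_ATH : ATH_stmt := ATH fin_DQI fin_ONB

theorem fin_TVW : TVW_stmt := TVW fin_ST1 fin_CLQ

theorem fin_ATV : ATV_stmt := ATV fin_ATH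

theorem fin_AEV : AEV_stmt := AEV fin_ATH

theorem fin_DRK : DRK_stmt := DRK fin_DQI

theorem fin_HYP : HYP_stmt := HYP fin_CWQ fin_NSV

theorem fin_M1 : M1_stmt := M1 fin_HYP fin_SGQ

theorem fin_DSB : DSB_stmt := DSB

theorem fin_DHR : DHR_stmt := DHR fin_DQI

theorem fin_DAR : DAR_stmt := DAR

theorem fin_DZE : DZE_stmt := DZE

theorem fin_DPI : DPI_stmt := DPI

theorem fin_DNU : DNU_stmt := DNU

theorem fin_DPZ : DPZ_stmt := DPZ fin_DNU

theorem fin_DBL : DBL_stmt := DBL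

theorem fin_DTR : DTR_stmt := DTR fin_DBL

theorem fin_DCY : DCY_stmt := DCY

theorem fin_DEL : DEL_stmt := DEL fin_DBL

theorem fin_DSQ : DSQ_stmt := DSQ

theorem fin_DIO : DIO_stmt := DIO

theorem fin_DFX : DFX_stmt := DFX

theorem fin_DPR : DPR_stmt := DPR

theorem fin_DCO : DCO_stmt := DCO fin_DFX fin_DPR

theorem fin_DYY : DYY_stmt := DYY

theorem fin_DNM : DNM_stmt := DNM

theorem fin_DZ : DZ_stmt := DZ fin_SGQ fin_ORD fin_ONB fin_DSB fin_DHR fin_DAR fin_DZE fin_DPI fin_DPZ fin_DTR fin_DCY fin_DEL fin_DSQ fin_DIO fin_DCO fin_DYY fin_DNM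

theorem fin_EPQ : EPQ_stmt := EPQ GS.fin_DU

theorem fin_ESN : ESN_stmt := ESN fin_EPQ

theorem fin_ERK : ERK_stmt := ERK fin_EPQ fin_ESN

theorem fin_EN5 : EN5_stmt := EN5

theorem fin_EPH : EPH_stmt := EPH

theorem fin_E2R : E2R_stmt := E2R fin_EPQ fin_EN5 fin_EPH

theorem fin_ESE : ESE_stmt := ESE fin_CWQ

theorem fin_EQT : EQT_stmt := EQT

theorem fin_EXZ : EXZ_stmt := EXZ fin_ESE fin_EQT

theorem fin_EX4 : EX4_stmt := EX4 fin_EXZ fin_EQT

theorem fin_E4R : E4R_stmt := E4R fin_EN5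

theorem fin_EZ : EZ_stmt := EZ fin_RP fin_SGQ fin_W2 fin_ERK fin_E2R fin_EX4 fin_E4R

theorem fin_QZ2 : QZ2_stmt := QZ2 fin_CWQ

theorem fin_R3A : R3A_stmt := R3A fin_NSV fin_RP

theorem fin_R3B : R3B_stmt := R3B fin_CWQ fin_NSV fin_SGQ

theorem fin_R3I : R3I_stmt := R3I fin_R3A fin_R3B fin_NSV

theorem fin_R3O : R3O_stmt := R3O fin_R3A fin_R3B fin_QZ2 fin_NSV

theorem fin_C1 : C1_stmt := C1 fin_SGQ fin_BLW

theorem fin_C2 : C2_stmt := C2 fin_SGQ fin_BLW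

theorem fin_C3 : C3_stmt := C3 fin_CWQ fin_SGQ fin_BLW

theorem fin_L2 : L2_stmt := L2 fin_C2 fin_CWQ

theorem fin_O1 : O1_stmt := O1 fin_C2 fin_C3 fin_CWQ

theorem fin_O3 : O3_stmt := O3 fin_C2 fin_CWQ

theorem fin_O4 : O4_stmt := O4 fin_C1 fin_CWQ fin_QZ2

theorem fin_LRL : LRL_stmt := LRL fin_L2 fin_O1 fin_O3 fin_O4

theorem fin_DQ1 : DQ1_stmt := DQ1 GS.fin_DS2

theorem fin_DQ2 : DQ2_stmt := DQ2 GS.fin_DS1 GS.fin_DS2 fin_DQ1

theorem fin_SLQ : SLQ_stmt := SLQ fin_SGQ fin_BLW fin_PEW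

theorem fin_S3Q : S3Q_stmt := S3Q fin_SGQ ORT.fin_NRX

theorem fin_SCL : SCL_stmt := SCL

theorem fin_MPL : MPL_stmt := MPL fin_TVW fin_ATV fin_R3I fin_R3O fin_KDQ fin_DRK fin_M1 fin_DZ fin_FER fin_EZ fin_LRL fin_BLC fin_AEV

theorem fin_MPS : MPS_stmt := MPS fin_DQ2 fin_SLQ fin_S3Q fin_KDQ fin_DRK fin_M1 fin_DZ fin_AEV

theorem fin_MN : MN_stmt := MN fin_SCL fin_MPL fin_MPS GS.fin_PO

theorem fin_CNO : CNO_stmt := CNO fin_RP fin_NSV

theorem fin_FG : FG_stmt := FG fin_CNO GS.fin_AD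

theorem fin_PRO : PRO_stmt := PRO

theorem fin_LRB : LRB_stmt := LRB

theorem fin_FRO : FRO_stmt := FRO fin_CNO fin_LRB fin_NSV GS.fin_AD

theorem fin_FIN : FIN_stmt := FIN fin_MN fin_FG fin_PRO fin_FRO GS.fin_BE

theorem fin_ALL : ALL_stmt := ALL fin_FIN ORT.fin_FIN GS.fin_SB

end Pool.Agent.ORE
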