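import Pool.Agent.helper53.ORT.Basic

/-!
# Project ore (MP_561ff4_al): conjugate generation in orthogonal groups in characteristic two. Definitions and basic lemmas.

The ambient group is `Equiv.Perm V`. `Q` is a quadratic form, `pb Q` its polar form, `OQ Q` the orthogonal group, `OmQ Q` its commutator subgroup.
Characteristic two is expressed by the hypothesis `(2 : F) = 0`.
-/

set_option autoImplicit false

namespace Pool.Agent.ORE

open Module Pool.Agent.GS

open scoped BigOperators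

noncomputable section

variable {F V : Type} [Field F] [AddCommGroup V] [Module F V]

/-- The polar form of `Q`. -/
def pb (Q : QuadraticForm F V) : LinearMap.BilinForm F V := QuadraticMap.polarBilin Q

theorem Q_add (Q : QuadraticForm F V) (x y : V) : Q (x + y) = Q x + Q y + pb Q x y := by
  unfold pb
  rw [QuadraticMap.polarBilin_apply_apply, QuadraticMap.polar]
  ring

theorem Q_smul (Q : QuadraticForm F V) (c : F) (x : V) : Q (c • x) = c ^ 2 * Q x := by
  rw [QuadraticMap.map_smul, smul_eq_mul, pow_two]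

theorem Q_zero (Q : QuadraticForm F V) : Q 0 = 0 := QuadraticMap.map_zero Q

theorem pb_symm (Q : QuadraticForm F V) (x y : V) : pb Q x y = pb Q y x := by
  have h1 := Q_add Q x y
  have h2 := Q_add Q y x
  rw [add_comm y x] at h2
  linear_combination h2 - h1

theorem pb_self (Q : QuadraticForm F V) (x : V) : pb Q x x = 2 * Q x := by
  have h1 := Q_add Q x x
  rw [← two_smul F x, Q_smul] at h1
  linear_combination -h1

theorem Q_sum {ι : Type} (Q : QuadraticForm F V) (s : Finset ι) (f : ι → V)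
    (h : ∀ i ∈ s, ∀ j ∈ s, i ≠ j → pb Q (f i) (f j) = 0) :
    Q (∑ i ∈ s, f i) = ∑ i ∈ s, Q (f i) := by
  classical
  induction s using Finset.induction_on with
  | empty => rw [Finset.sum_empty, Finset.sum_empty, Q_zero]
  | insert a s ha ih =>
    have e : pb Q (f a) (∑ i ∈ s, f i) = 0 := by
      rw [map_sum]
      refine Finset.sum_eq_zero fun i hi => ?_
      exact h a (Finset.mem_insert_self a s) i (Finset.mem_insert_of_mem hi)
        (fun h' => ha (h' ▸ hi))
    rw [Finset.sum_insert ha, Finset.sum_insert ha, Q_add, e, add_zero,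
      ih fun i hi j hj => h i (Finset.mem_insert_of_mem hi) j (Finset.mem_insert_of_mem hj)]

/-! ### Characteristic two -/

theorem neg2 (h2 : (2 : F) = 0) (x : F) : -x = x := by linear_combination (-x) * h2

theorem add2 (h2 : (2 : F) = 0) (x : F) : x + x = 0 := by linear_combination x * h2

theorem sub2 (h2 : (2 : F) = 0) (x y : F) : x - y = x + y := by linear_combination (-y) * h2

theorem addV (h2 : (2 : F) = 0) (x : V) : x + x = 0 := by
  rw [← two_smul F x, h2, zero_smul]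

theorem negV (h2 : (2 : F) = 0) (x : V) : -x = x := neg_eq_of_add_eq_zero_left (addV h2 x)

theorem subV (h2 : (2 : F) = 0) (x y : V) : x - y = x + y := by
  rw [sub_eq_add_neg, negV h2]

theorem pb_self2 (h2 : (2 : F) = 0) (Q : QuadraticForm F V) (x : V) : pb Q x x = 0 := by
  rw [pb_self, h2, zero_mul]

theorem eq_of_add2 (h2 : (2 : F) = 0) {x y : F} (h : x + y = 0) : x = y := by
  linear_combination h - y * h2

theorem eq_of_addV (h2 : (2 : F) = 0) {x y : V} (h : x + y = 0) : x = y := by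
  rw [← subV h2] at h
  exact sub_eq_zero.1 h

theorem charP2 (h2 : (2 : F) = 0) : CharP F 2 := by
  refine ⟨fun n => ?_⟩
  constructor
  · intro h
    rcases Nat.even_or_odd' n with ⟨k, rfl | rfl⟩
    · exact dvd_mul_right 2 k
    · exfalso
      push_cast at h
      rw [h2, zero_mul, zero_add] at h
      exact one_ne_zero h
  · rintro ⟨k, rfl⟩
    push_cast
    rw [h2, zero_mul]

/-- The quadratic form is nondegenerate (its polar form is). -/
def Nd (Q : QuadraticForm F V) : Prop := ∀ x, (∀ y, pb Q x y = 0) → x = 0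

/-! ### Groups -/

/-- The orthogonal group. -/
def OQ (Q : QuadraticForm F V) : Subgroup (Equiv.Perm V) where
  carrier := {g | Lin F g ∧ ∀ v, Q (g v) = Q v}
  one_mem' := ⟨⟨fun _ _ => rfl, fun _ _ => rfl⟩, fun _ => rfl⟩
  mul_mem' := by
    intro a b ha hb
    refine ⟨⟨fun u v => ?_, fun c v => ?_⟩, fun v => ?_⟩
    · simp only [Equiv.Perm.mul_apply, hb.1.1, ha.1.1]
    · simp only [Equiv.Perm.mul_apply, hb.1.2, ha.1.2]
    · simp only [Equiv.Perm.mul_apply, hb.2, ha.2]
  inv_mem' := by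
    intro a ha
    refine ⟨⟨fun u v => ?_, fun c v => ?_⟩, fun v => ?_⟩
    · apply a.injective
      rw [ha.1.1, pinv, pinv, pinv]
    · apply a.injective
      rw [ha.1.2, pinv, pinv]
    · rw [← ha.2, pinv]

/-- The commutator subgroup of the orthogonal group. -/
def OmQ (Q : QuadraticForm F V) : Subgroup (Equiv.Perm V) := ⁅OQ Q, OQ Q⁆

theorem OmQ_le (Q : QuadraticForm F V) : OmQ Q ≤ OQ Q := Subgroup.commutator_le_self _

theorem OQ_pb {Q : QuadraticForm F V} {g : Equiv.Perm V} (hg : g ∈ OQ Q) (x y : V) :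
    pb Q (g x) (g y) = pb Q x y := by
  have h1 := Q_add Q (g x) (g y)
  rw [← hg.1.1, hg.2, hg.2, hg.2, Q_add] at h1
  linear_combination -h1

theorem OmQ_conj {Q : QuadraticForm F V} {g h : Equiv.Perm V} (hg : g ∈ OQ Q)
    (hh : h ∈ OmQ Q) : g * h * g⁻¹ ∈ OmQ Q := by
  have h1 : g * h * g⁻¹ * h⁻¹ ∈ OmQ Q := Subgroup.commutator_mem_commutator hg (OmQ_le Q hh)
  have h2 := (OmQ Q).mul_mem h1 hh
  rwa [inv_mul_cancel_right] at h2

/-- Semisimilarities of `Q`. -/
structure QSim (Q : QuadraticForm F V) (y : Equiv.Perm V) (ψ : F ≃+* F) (ν : F) : Prop where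
  ne : ν ≠ 0
  add : ∀ u v, y (u + v) = y u + y v
  smul : ∀ (c : F) (v : V), y (c • v) = ψ c • y v
  form : ∀ v, Q (y v) = ν * ψ (Q v)

theorem QSim.pb {Q : QuadraticForm F V} {y : Equiv.Perm V} {ψ : F ≃+* F} {ν : F}
    (hy : QSim Q y ψ ν) (u v : V) : pb Q (y u) (y v) = ν * ψ (pb Q u v) := by
  have h1 := Q_add Q (y u) (y v)
  have h3 : ψ (Q u + Q v + Pool.Agent.ORE.pb Q u v) = ψ (Q u) + ψ (Q v) +
      ψ (Pool.Agent.ORE.pb Q u v) := by rw [map_add, map_add]
  rw [← hy.add, hy.form, hy.form, hy.form, Q_add, h3] at h1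
  linear_combination -h1

theorem QSim.sim {Q : QuadraticForm F V} {y : Equiv.Perm V} {ψ : F ≃+* F} {ν : F}
    (hy : QSim Q y ψ ν) : Sim (Pool.Agent.ORE.pb Q) y ψ ν :=
  ⟨hy.ne, hy.add, hy.smul, hy.pb⟩

theorem QSim_of_mem {Q : QuadraticForm F V} {g : Equiv.Perm V} (hg : g ∈ OQ Q) :
    QSim Q g (RingEquiv.refl F) 1 :=
  ⟨one_ne_zero, hg.1.1, fun c v => hg.1.2 c v, fun v => by rw [hg.2, one_mul]; rfl⟩

theorem OQ_le_SpG (Q : QuadraticForm F V) : OQ Q ≤ SpG (pb Q) :=
  fun _ hg => ⟨hg.1, fun u v => OQ_pb hg u v⟩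

/-! ### Reflections (transvections) in characteristic two -/

open Classical in
/-- The orthogonal transvection `x ↦ x + (B(x,a) / Q(a)) a` (characteristic two, `Q a ≠ 0`). -/
def rq (Q : QuadraticForm F V) (a : V) : Equiv.Perm V :=
  if h : (2 : F) = 0 ∧ Q a ≠ 0 then
    { toFun := fun x => x + (pb Q x a / Q a) • a
      invFun := fun x => x + (pb Q x a / Q a) • a
      left_inv := by
        intro x
        simp only [map_add, LinearMap.add_apply, map_smul, LinearMap.smul_apply, smul_eq_mul,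
          pb_self2 h.1, mul_zero, add_zero]
        rw [add_assoc, addV h.1, add_zero]
      right_inv := by
        intro x
        simp only [map_add, LinearMap.add_apply, map_smul, LinearMap.smul_apply, smul_eq_mul,
          pb_self2 h.1, mul_zero, add_zero]
        rw [add_assoc, addV h.1, add_zero] }
  else 1

theorem rq_apply {Q : QuadraticForm F V} (h2 : (2 : F) = 0) {a : V} (h : Q a ≠ 0) (x : V) :
    rq Q a x = x + (pb Q x a / Q a) • a := by
  unfold rq
  rw [dif_pos ⟨h2, h⟩]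
  rfl

theorem rq_of_orth {Q : QuadraticForm F V} (h2 : (2 : F) = 0) {a x : V} (h : Q a ≠ 0)
    (hx : pb Q x a = 0) : rq Q a x = x := by
  rw [rq_apply h2 h, hx, zero_div, zero_smul, add_zero]

theorem rq_self {Q : QuadraticForm F V} (h2 : (2 : F) = 0) {a : V} (h : Q a ≠ 0) :
    rq Q a a = a := rq_of_orth h2 h (pb_self2 h2 Q a)

/-- `a + b` with `Q a = Q b`, `B(a,b) ≠ 0`: the transvection `rq Q (a + b)` interchanges `a` and `b`. -/
theorem rq_swap {Q : QuadraticForm F V} (h2 : (2 : F) = 0) {a b : V} (h : Q a = Q b)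
    (hab : pb Q a b ≠ 0) : rq Q (a + b) a = b := by
  have e : Q (a + b) = pb Q a b := by
    rw [Q_add, h]
    linear_combination (Q b) * h2
  have e0 : Q (a + b) ≠ 0 := by rw [e]; exact hab
  have e1 : pb Q a (a + b) = pb Q a b := by rw [map_add, pb_self2 h2, zero_add]
  rw [rq_apply h2 e0, e, e1, div_self hab, one_smul, ← add_assoc, addV h2, zero_add]

theorem rq_sq {Q : QuadraticForm F V} (a : V) : rq Q a * rq Q a = 1 := by
  by_cases h : (2 : F) = 0 ∧ Q a ≠ 0
  · ext x
    rw [Equiv.Perm.mul_apply, rq_apply h.1 h.2, rq_apply h.1 h.2, map_add, LinearMap.add_apply,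
      map_smul, LinearMap.smul_apply, pb_self2 h.1, smul_zero, add_zero, add_assoc, addV h.1,
      add_zero]
    rfl
  · unfold rq
    rw [dif_neg h, one_mul]

theorem rq_inv {Q : QuadraticForm F V} (a : V) : (rq Q a)⁻¹ = rq Q a :=
  inv_eq_of_mul_eq_one_left (rq_sq a)

theorem rq_mem (Q : QuadraticForm F V) (a : V) : rq Q a ∈ OQ Q := by
  by_cases h : (2 : F) = 0 ∧ Q a ≠ 0
  · obtain ⟨h2, ha⟩ := h
    refine ⟨⟨fun x y => ?_, fun c x => ?_⟩, fun x => ?_⟩
    · rw [rq_apply h2 ha, rq_apply h2 ha, rq_apply h2 ha, map_add, LinearMap.add_apply, add_div,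
        add_smul]
      abel
    · rw [rq_apply h2 ha, rq_apply h2 ha, map_smul, LinearMap.smul_apply, smul_add, smul_smul,
        smul_eq_mul, mul_div_assoc]
    · rw [rq_apply h2 ha, Q_add, Q_smul, map_smul, smul_eq_mul]
      field_simp
      linear_combination ((pb Q x) a ^ 2) * h2
  · unfold rq
    rw [dif_neg h]
    exact (OQ Q).one_mem

theorem rq_conj {Q : QuadraticForm F V} {y : Equiv.Perm V} {ψ : F ≃+* F} {ν : F}
    (hy : QSim Q y ψ ν) (a : V) : y * rq Q a * y⁻¹ = rq Q (y a) := by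
  have h0 : Q (y a) = ν * ψ (Q a) := hy.form a
  by_cases h : (2 : F) = 0 ∧ Q a ≠ 0
  · obtain ⟨h2, ha⟩ := h
    have h' : Q (y a) ≠ 0 := by
      rw [h0]
      exact mul_ne_zero hy.ne ((map_ne_zero ψ).2 ha)
    ext x
    have h1 : pb Q x (y a) = ν * ψ (pb Q (y⁻¹ x) a) := by rw [← hy.pb, pinv]
    rw [Equiv.Perm.mul_apply, Equiv.Perm.mul_apply, rq_apply h2 ha, rq_apply h2 h', hy.add,
      hy.smul, pinv, h1, h0]
    congr 2
    have := hy.ne
    have h3 : ψ (Q a) ≠ 0 := (map_ne_zero ψ).2 ha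
    rw [map_div₀]
    field_simp
  · have h' : ¬ ((2 : F) = 0 ∧ Q (y a) ≠ 0) := by
      rintro ⟨h2, h3⟩
      apply h
      refine ⟨h2, ?_⟩
      intro h4
      apply h3
      rw [h0, h4, map_zero, mul_zero]
    unfold rq
    rw [dif_neg h, dif_neg h', mul_one, mul_inv_cancel]

theorem rq_conj_mem {Q : QuadraticForm F V} {g : Equiv.Perm V} (hg : g ∈ OQ Q) (a : V) :
    g * rq Q a * g⁻¹ = rq Q (g a) :=
  rq_conj (QSim_of_mem hg) a

theorem rq_smul {Q : QuadraticForm F V} {c : F} (hc : c ≠ 0) (a : V) :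
    rq Q (c • a) = rq Q a := by
  by_cases h : (2 : F) = 0 ∧ Q a ≠ 0
  · obtain ⟨h2, ha⟩ := h
    have h' : Q (c • a) ≠ 0 := by
      rw [Q_smul]
      exact mul_ne_zero (pow_ne_zero 2 hc) ha
    ext x
    rw [rq_apply h2 ha, rq_apply h2 h', Q_smul, map_smul, smul_smul, smul_eq_mul]
    congr 2
    field_simp
  · have h' : ¬ ((2 : F) = 0 ∧ Q (c • a) ≠ 0) := by
      rintro ⟨h2, h3⟩
      apply h
      refine ⟨h2, ?_⟩
      intro h4
      apply h3
      rw [Q_smul, h4, mul_zero]
    unfold rq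
    rw [dif_neg h, dif_neg h']

theorem rq_comm {Q : QuadraticForm F V} {a b : V} (h : pb Q a b = 0) :
    rq Q a * rq Q b = rq Q b * rq Q a := by
  have h' : pb Q b a = 0 := by rw [pb_symm, h]
  by_cases ha : (2 : F) = 0 ∧ Q a ≠ 0
  · by_cases hb : (2 : F) = 0 ∧ Q b ≠ 0
    · ext x
      rw [Equiv.Perm.mul_apply, Equiv.Perm.mul_apply, rq_apply ha.1 ha.2, rq_apply hb.1 hb.2,
        rq_apply ha.1 ha.2, rq_apply hb.1 hb.2]
      simp only [map_add, LinearMap.add_apply, map_smul, LinearMap.smul_apply, smul_eq_mul, h, h',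
        mul_zero, add_zero]
      abel
    · unfold rq
      rw [dif_neg hb, one_mul, mul_one]
  · unfold rq
    rw [dif_neg ha, one_mul, mul_one]

/-! ### Siegel transformations in characteristic two -/

open Classical in
/-- `x ↦ x + B(x,u) d + B(x,d) u + Q(d) B(x,u) u` (characteristic two, `Q u = 0`, `B(u,d) = 0`). For `Q d = 0` this is a long root element. -/
def sq (Q : QuadraticForm F V) (u d : V) : Equiv.Perm V :=
  if h : (2 : F) = 0 ∧ Q u = 0 ∧ pb Q u d = 0 then
    { toFun := fun x => x + pb Q x u • d + pb Q x d • u + (Q d * pb Q x u) • u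
      invFun := fun x => x + pb Q x u • d + pb Q x d • u + (Q d * pb Q x u) • u
      left_inv := by
        intro x
        obtain ⟨h2, h1, h3⟩ := h
        simp only [map_add, LinearMap.add_apply, map_smul, LinearMap.smul_apply, smul_eq_mul,
          pb_self2 h2, h3, (pb_symm Q d u).trans h3, mul_zero, add_zero]
        have e : ∀ (a b c : V), x + a + b + c + a + b + c = x + (a + a) + (b + b) + (c + c) := by
          intro a b c
          abel
        rw [e, addV h2, addV h2, addV h2]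
        simp
      right_inv := by
        intro x
        obtain ⟨h2, h1, h3⟩ := h
        simp only [map_add, LinearMap.add_apply, map_smul, LinearMap.smul_apply, smul_eq_mul,
          pb_self2 h2, h3, (pb_symm Q d u).trans h3, mul_zero, add_zero]
        have e : ∀ (a b c : V), x + a + b + c + a + b + c = x + (a + a) + (b + b) + (c + c) := by
          intro a b c
          abel
        rw [e, addV h2, addV h2, addV h2]
        simp }
  else 1

theorem sq_apply {Q : QuadraticForm F V} (h2 : (2 : F) = 0) {u d : V} (hu : Q u = 0)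
    (hd : pb Q u d = 0) (x : V) :
    sq Q u d x = x + pb Q x u • d + pb Q x d • u + (Q d * pb Q x u) • u := by
  unfold sq
  rw [dif_pos ⟨h2, hu, hd⟩]
  rfl

theorem sq_sq {Q : QuadraticForm F V} (u d : V) : sq Q u d * sq Q u d = 1 := by
  by_cases h : (2 : F) = 0 ∧ Q u = 0 ∧ pb Q u d = 0
  · ext x
    have := (sq Q u d).right_inv x
    have e : (sq Q u d).invFun x = sq Q u d x := by
      unfold sq
      rw [dif_pos h]
      rfl
    rw [e] at this
    exact this
  · unfold sq
    rw [dif_neg h, one_mul]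

theorem sq_inv {Q : QuadraticForm F V} (u d : V) : (sq Q u d)⁻¹ = sq Q u d :=
  inv_eq_of_mul_eq_one_left (sq_sq u d)

theorem sq_mem (Q : QuadraticForm F V) (u d : V) : sq Q u d ∈ OQ Q := by
  by_cases h : (2 : F) = 0 ∧ Q u = 0 ∧ pb Q u d = 0
  · obtain ⟨h2, h1, h3⟩ := h
    refine ⟨⟨fun x y => ?_, fun c x => ?_⟩, fun x => ?_⟩
    · rw [sq_apply h2 h1 h3, sq_apply h2 h1 h3, sq_apply h2 h1 h3]
      simp only [map_add, LinearMap.add_apply]
      module
    · rw [sq_apply h2 h1 h3, sq_apply h2 h1 h3]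
      simp only [map_smul, LinearMap.smul_apply, smul_eq_mul]
      module
    · rw [sq_apply h2 h1 h3, Q_add, Q_add, Q_add]
      simp only [Q_smul, map_add, LinearMap.add_apply, map_smul, LinearMap.smul_apply,
        smul_eq_mul, pb_self2 h2, h1, (pb_symm Q d u).trans h3, mul_zero, add_zero]
      linear_combination (pb Q x u ^ 2 * Q d + pb Q x u * pb Q x d) * h2
  · unfold sq
    rw [dif_neg h]
    exact (OQ Q).one_mem

/-- Conjugation of a Siegel transformation by a semisimilarity. -/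
theorem sq_conj {Q : QuadraticForm F V} (h2 : (2 : F) = 0) {y : Equiv.Perm V}
    {ψ : F ≃+* F} {ν : F} (hy : QSim Q y ψ ν) {u d : V} (hu : Q u = 0) (hd : pb Q u d = 0) :
    y * sq Q u d * y⁻¹ = sq Q (y u) (ν⁻¹ • y d) := by
  have hu' : Q (y u) = 0 := by rw [hy.form, hu, map_zero, mul_zero]
  have hd' : pb Q (y u) (ν⁻¹ • y d) = 0 := by
    rw [map_smul, hy.pb, hd, map_zero, mul_zero, smul_zero]
  ext x
  rw [Equiv.Perm.mul_apply, Equiv.Perm.mul_apply, sq_apply h2 hu hd, sq_apply h2 hu' hd']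
  rw [hy.add, hy.add, hy.add, hy.smul, hy.smul, hy.smul, pinv]
  have h1 : pb Q x (y u) = ν * ψ (pb Q (y⁻¹ x) u) := by rw [← hy.pb, pinv]
  have h3 : pb Q x (y d) = ν * ψ (pb Q (y⁻¹ x) d) := by rw [← hy.pb, pinv]
  have h4 : Q (y d) = ν * ψ (Q d) := hy.form d
  have hν := hy.ne
  simp only [Q_smul, map_smul, smul_eq_mul, h1, h3, h4, map_mul]
  match_scalars <;> field_simp

theorem sq_conj_mem {Q : QuadraticForm F V} (h2 : (2 : F) = 0) {g : Equiv.Perm V}
    (hg : g ∈ OQ Q) {u d : V} (hu : Q u = 0) (hd : pb Q u d = 0) :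
    g * sq Q u d * g⁻¹ = sq Q (g u) (g d) := by
  rw [sq_conj h2 (QSim_of_mem hg) hu hd, inv_one, one_smul]

theorem sq_add {Q : QuadraticForm F V} (h2 : (2 : F) = 0) {u d e : V}
    (hu : Q u = 0) (hd : pb Q u d = 0) (he : pb Q u e = 0) :
    sq Q u d * sq Q u e = sq Q u (d + e) := by
  have hde : pb Q u (d + e) = 0 := by rw [map_add, hd, he, add_zero]
  have hd' : pb Q d u = 0 := by rw [pb_symm, hd]
  have he' : pb Q e u = 0 := by rw [pb_symm, he]
  ext x
  rw [Equiv.Perm.mul_apply, sq_apply h2 hu he, sq_apply h2 hu hd, sq_apply h2 hu hde, Q_add]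
  simp only [map_add, LinearMap.add_apply, map_smul, LinearMap.smul_apply, smul_eq_mul,
    pb_self2 h2, hd, he', mul_zero, add_zero]
  rw [pb_symm Q e d]
  module

/-- `sq Q u d = rq Q d * rq Q (d + Q(d) u)` for `Q d ≠ 0`. -/
theorem sq_eq_rq {Q : QuadraticForm F V} (h2 : (2 : F) = 0) {u d : V}
    (hu : Q u = 0) (hd : pb Q u d = 0) (hq : Q d ≠ 0) :
    sq Q u d = rq Q d * rq Q (d + Q d • u) := by
  have e : Q (d + Q d • u) = Q d := by
    rw [Q_add, Q_smul, hu, map_smul, pb_symm Q d u, hd, smul_zero, mul_zero, add_zero, add_zero]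
  have hq' : Q (d + Q d • u) ≠ 0 := by rw [e]; exact hq
  have hd' : pb Q d u = 0 := by rw [pb_symm, hd]
  ext x
  rw [Equiv.Perm.mul_apply, rq_apply h2 hq', e, rq_apply h2 hq, sq_apply h2 hu hd]
  simp only [map_add, LinearMap.add_apply, map_smul, LinearMap.smul_apply, smul_eq_mul,
    pb_self2 h2, hd, mul_zero, add_zero]
  match_scalars
  · ring
  · field_simp
    linear_combination (-(pb Q x) d) * h2
  · field_simp

/-! ### Orthogonal families -/

/-- `a` is a family of pairwise orthogonal vectors with `Q = 1`. -/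
structure Oq {ι : Type} (Q : QuadraticForm F V) (a : ι → V) : Prop where
  o : ∀ i j, i ≠ j → pb Q (a i) (a j) = 0
  n : ∀ i, Q (a i) = 1

theorem Oq.oo {ι : Type} {Q : QuadraticForm F V} {a : ι → V} (h : Oq Q a) (h2 : (2 : F) = 0)
    (i j : ι) : pb Q (a i) (a j) = 0 := by
  by_cases hij : i = j
  · rw [hij, pb_self2 h2]
  · exact h.o i j hij

theorem fq_aux {ι : Type} [Fintype ι] {Q : QuadraticForm F V} {a : ι → V}
    (h : (2 : F) = 0 ∧ Oq Q a) (x : V) :
    x + ∑ i, pb Q x (a i) • a i + ∑ i, pb Q (x + ∑ i, pb Q x (a i) • a i) (a i) • a i = x := by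
  have hk : ∀ j, pb Q (x + ∑ i, pb Q x (a i) • a i) (a j) = pb Q x (a j) := by
    intro j
    rw [map_add, LinearMap.add_apply, map_sum, LinearMap.sum_apply, Finset.sum_eq_zero, add_zero]
    intro i _
    rw [map_smul, LinearMap.smul_apply, h.2.oo h.1, smul_zero]
  have e : ∑ i, pb Q (x + ∑ i, pb Q x (a i) • a i) (a i) • a i = ∑ i, pb Q x (a i) • a i :=
    Finset.sum_congr rfl fun i _ => by rw [hk i]
  rw [e, add_assoc, addV h.1, add_zero]

open Classical in
/-- The product of the commuting transvections of an orthogonal family (characteristic two). -/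
def fq {ι : Type} [Fintype ι] (Q : QuadraticForm F V) (a : ι → V) : Equiv.Perm V :=
  if h : (2 : F) = 0 ∧ Oq Q a then
    { toFun := fun x => x + ∑ i, pb Q x (a i) • a i
      invFun := fun x => x + ∑ i, pb Q x (a i) • a i
      left_inv := fun x => fq_aux h x
      right_inv := fun x => fq_aux h x }
  else 1

theorem fq_apply {ι : Type} [Fintype ι] {Q : QuadraticForm F V} (h2 : (2 : F) = 0) {a : ι → V}
    (h : Oq Q a) (x : V) : fq Q a x = x + ∑ i, pb Q x (a i) • a i := by
  unfold fq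
  rw [dif_pos ⟨h2, h⟩]
  rfl

theorem fq_sq {ι : Type} [Fintype ι] {Q : QuadraticForm F V} (a : ι → V) :
    fq Q a * fq Q a = 1 := by
  by_cases h : (2 : F) = 0 ∧ Oq Q a
  · ext x
    rw [Equiv.Perm.mul_apply, fq_apply h.1 h.2, fq_apply h.1 h.2]
    exact fq_aux h x
  · unfold fq
    rw [dif_neg h, one_mul]

theorem fq_inv {ι : Type} [Fintype ι] {Q : QuadraticForm F V} (a : ι → V) :
    (fq Q a)⁻¹ = fq Q a :=
  inv_eq_of_mul_eq_one_left (fq_sq a)

theorem fq_of_orth {ι : Type} [Fintype ι] {Q : QuadraticForm F V} (h2 : (2 : F) = 0)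
    {a : ι → V} (h : Oq Q a) {x : V} (hx : ∀ i, pb Q x (a i) = 0) : fq Q a x = x := by
  rw [fq_apply h2 h, Finset.sum_eq_zero, add_zero]
  intro i _
  rw [hx i, zero_smul]

theorem fq_mem {ι : Type} [Fintype ι] (Q : QuadraticForm F V) (a : ι → V) : fq Q a ∈ OQ Q := by
  by_cases h : (2 : F) = 0 ∧ Oq Q a
  · obtain ⟨h2, h⟩ := h
    refine ⟨⟨fun x y => ?_, fun c x => ?_⟩, fun x => ?_⟩
    · rw [fq_apply h2 h, fq_apply h2 h, fq_apply h2 h]
      have e : ∑ i, pb Q (x + y) (a i) • a i =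
          ∑ i, pb Q x (a i) • a i + ∑ i, pb Q y (a i) • a i := by
        rw [← Finset.sum_add_distrib]
        refine Finset.sum_congr rfl fun i _ => ?_
        rw [map_add, LinearMap.add_apply, add_smul]
      rw [e]
      abel
    · rw [fq_apply h2 h, fq_apply h2 h, smul_add, Finset.smul_sum]
      congr 1
      refine Finset.sum_congr rfl fun i _ => ?_
      rw [map_smul, LinearMap.smul_apply, smul_smul, smul_eq_mul]
    · rw [fq_apply h2 h, Q_add, Q_sum, map_sum]
      · have e1 : ∀ i, Q (pb Q x (a i) • a i) = pb Q x (a i) ^ 2 := fun i => by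
          rw [Q_smul, h.n, mul_one]
        have e3 : ∀ i, pb Q x (pb Q x (a i) • a i) = pb Q x (a i) ^ 2 := fun i => by
          rw [map_smul, smul_eq_mul, pow_two]
        rw [Finset.sum_congr rfl fun i _ => e1 i, Finset.sum_congr rfl fun i _ => e3 i, add_assoc,
          add2 h2, add_zero]
      · intro i _ j _ hij
        rw [map_smul, map_smul, LinearMap.smul_apply, h.o i j hij, smul_zero, smul_zero]
  · unfold fq
    rw [dif_neg h]
    exact (OQ Q).one_mem

theorem Oq.mem {ι : Type} {Q : QuadraticForm F V} {g : Equiv.Perm V} (hg : g ∈ OQ Q)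
    {a : ι → V} (h : Oq Q a) : Oq Q (fun i => g (a i)) :=
  ⟨fun i j hij => by rw [OQ_pb hg, h.o i j hij], fun i => by rw [hg.2, h.n]⟩

/-- Conjugation of `fq` by an isometry. -/
theorem fq_conj {ι : Type} [Fintype ι] {Q : QuadraticForm F V} (h2 : (2 : F) = 0)
    {g : Equiv.Perm V} (hg : g ∈ OQ Q) {a : ι → V} (h : Oq Q a) :
    g * fq Q a * g⁻¹ = fq Q (fun i => g (a i)) := by
  ext x
  have hs : ∀ (s : Finset ι) (f : ι → V), g (∑ i ∈ s, f i) = ∑ i ∈ s, g (f i) := by
    intro s f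
    let L : V →ₗ[F] V := { toFun := g, map_add' := hg.1.1, map_smul' := hg.1.2 }
    exact map_sum L f s
  rw [Equiv.Perm.mul_apply, Equiv.Perm.mul_apply, fq_apply h2 h, fq_apply h2 (h.mem hg), hg.1.1,
    hs, pinv]
  congr 1
  refine Finset.sum_congr rfl fun i _ => ?_
  rw [hg.1.2]
  congr 1
  rw [← OQ_pb hg, pinv]

theorem Oq.comp {ι κ : Type} {Q : QuadraticForm F V} {a : ι → V} (h : Oq Q a) {e : κ → ι}
    (he : Function.Injective e) : Oq Q (fun i => a (e i)) :=
  ⟨fun i j hij => h.o _ _ fun h' => hij (he h'), fun i => h.n _⟩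

theorem Oq.inl {ι κ : Type} {Q : QuadraticForm F V} {a : ι → V} {b : κ → V}
    (h : Oq Q (Sum.elim a b)) : Oq Q a := h.comp Sum.inl_injective

theorem Oq.inr {ι κ : Type} {Q : QuadraticForm F V} {a : ι → V} {b : κ → V}
    (h : Oq Q (Sum.elim a b)) : Oq Q b := h.comp Sum.inr_injective

/-- Gluing orthogonal families. -/
theorem Oq.sum {ι κ : Type} {Q : QuadraticForm F V} {a : ι → V} {b : κ → V}
    (ha : Oq Q a) (hb : Oq Q b) (hab : ∀ i j, pb Q (a i) (b j) = 0) : Oq Q (Sum.elim a b) := by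
  refine ⟨?_, ?_⟩
  · rintro (i | i) (j | j) hij
    · exact ha.o i j fun h => hij (by rw [h])
    · exact hab i j
    · show pb Q (b i) (a j) = 0
      rw [pb_symm]
      exact hab j i
    · exact hb.o i j fun h => hij (by rw [h])
  · rintro (i | i)
    · exact ha.n i
    · exact hb.n i

theorem fq_equiv {ι κ : Type} [Fintype ι] [Fintype κ] {Q : QuadraticForm F V}
    (h2 : (2 : F) = 0) {a : ι → V} (h : Oq Q a) (e : κ ≃ ι) :
    fq Q (fun i => a (e i)) = fq Q a := by
  ext x
  rw [fq_apply h2 h, fq_apply h2 (h.comp e.injective)]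
  congr 1
  exact Equiv.sum_comp e fun i => pb Q x (a i) • a i

theorem fq_sum {ι κ : Type} [Fintype ι] [Fintype κ] {Q : QuadraticForm F V}
    (h2 : (2 : F) = 0) {a : ι → V} {b : κ → V} (h : Oq Q (Sum.elim a b)) :
    fq Q (Sum.elim a b) = fq Q a * fq Q b := by
  ext x
  rw [Equiv.Perm.mul_apply, fq_apply h2 h, fq_apply h2 h.inl, fq_apply h2 h.inr,
    Fintype.sum_sum_type]
  simp only [Sum.elim_inl, Sum.elim_inr]
  have e : ∀ i, pb Q (x + ∑ j, pb Q x (b j) • b j) (a i) = pb Q x (a i) := by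
    intro i
    rw [map_add, LinearMap.add_apply, map_sum, LinearMap.sum_apply, Finset.sum_eq_zero, add_zero]
    intro j _
    rw [map_smul, LinearMap.smul_apply]
    have : pb Q (b j) (a i) = 0 := h.o (Sum.inr j) (Sum.inl i) (by simp)
    rw [this, smul_zero]
  simp only [e]
  abel

theorem fq_comm {ι κ : Type} [Fintype ι] [Fintype κ] {Q : QuadraticForm F V}
    (h2 : (2 : F) = 0) {a : ι → V} {b : κ → V} (h : Oq Q (Sum.elim a b)) :
    fq Q a * fq Q b = fq Q b * fq Q a := by
  have h' : Oq Q (Sum.elim b a) := by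
    have e : (Sum.elim b a : κ ⊕ ι → V) = fun i => Sum.elim a b (Equiv.sumComm κ ι i) := by
      ext i
      rcases i with i | i <;> rfl
    rw [e]
    exact h.comp (Equiv.sumComm κ ι).injective
  rw [← fq_sum h2 h, ← fq_sum h2 h', ← fq_equiv h2 h (Equiv.sumComm κ ι)]
  congr 1
  ext i
  rcases i with i | i <;> rfl

theorem fq_unique {ι : Type} [Unique ι] {Q : QuadraticForm F V} (h2 : (2 : F) = 0) {a : ι → V}
    (h : Oq Q a) : fq Q a = rq Q (a default) := by
  have h0 : Q (a default) ≠ 0 := by rw [h.n]; exact one_ne_zero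
  ext x
  rw [fq_apply h2 h, rq_apply h2 h0, h.n, div_one, Fintype.sum_unique]

/-- A family of two vectors. -/
theorem fq_two {Q : QuadraticForm F V} (h2 : (2 : F) = 0) {a b : V} (ha : Q a = 1)
    (hb : Q b = 1) (hab : pb Q a b = 0) : fq Q ![a, b] = rq Q a * rq Q b := by
  have h : Oq Q ![a, b] := by
    refine ⟨?_, ?_⟩
    · intro i j hij
      fin_cases i <;> fin_cases j <;> simp_all [pb_symm Q b a]
    · intro i
      fin_cases i <;> simp_all
  have ha0 : Q a ≠ 0 := by rw [ha]; exact one_ne_zero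
  have hb0 : Q b ≠ 0 := by rw [hb]; exact one_ne_zero
  have hba : pb Q b a = 0 := by rw [pb_symm, hab]
  ext x
  rw [fq_apply h2 h, Equiv.Perm.mul_apply, rq_apply h2 hb0, rq_apply h2 ha0, ha, hb,
    Fin.sum_univ_two]
  simp only [Matrix.cons_val_zero, Matrix.cons_val_one, div_one, map_add, LinearMap.add_apply,
    map_smul, LinearMap.smul_apply, hba, smul_zero, add_zero]
  abel

/-! ### Generation by conjugates under `OmQ Q` -/

/-- `z` is, up to a scalar, in the group generated by `k` conjugates of `y` under `OmQ Q`. -/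
def Gq (Q : QuadraticForm F V) (y : Equiv.Perm V) (k : ℕ) (z : Equiv.Perm V) : Prop :=
  ∃ g : Fin k → Equiv.Perm V, (∀ i, g i ∈ OmQ Q) ∧ ∃ c : Fˣ,
    sc V c * z ∈ Subgroup.closure (Set.range fun i => g i * y * (g i)⁻¹)

theorem Gq.mul {Q : QuadraticForm F V} {y : Equiv.Perm V} {k l : ℕ} {z w : Equiv.Perm V}
    (hz : Gq Q y k z) (hw : Gq Q y l w) (hzl : Lin F z) :
    Gq Q y (k + l) (z * w) := by
  obtain ⟨g, hg, c, hc⟩ := hz
  obtain ⟨g', hg', c', hc'⟩ := hw
  refine ⟨Fin.append g g', ?_, c * c', ?_⟩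
  · intro i
    refine Fin.addCases (fun i => ?_) (fun i => ?_) i
    · rw [Fin.append_left]; exact hg i
    · rw [Fin.append_right]; exact hg' i
  · have e : sc V (c * c') * (z * w) = (sc V c * z) * (sc V c' * w) := by
      rw [sc_mul, mul_assoc, mul_assoc, ← mul_assoc (sc V c') z w, ← sc_comm hzl, mul_assoc]
    rw [e]
    refine Subgroup.mul_mem _ (Subgroup.closure_mono ?_ hc) (Subgroup.closure_mono ?_ hc')
    · rintro _ ⟨i, rfl⟩
      exact ⟨Fin.castAdd l i, by simp only [Fin.append_left]⟩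
    · rintro _ ⟨i, rfl⟩
      exact ⟨Fin.natAdd k i, by simp only [Fin.append_right]⟩

theorem Gq.mono {Q : QuadraticForm F V} {y : Equiv.Perm V} {k l : ℕ} {z : Equiv.Perm V}
    (hz : Gq Q y k z) (h : k ≤ l) : Gq Q y l z := by
  obtain ⟨g, hg, c, hc⟩ := hz
  refine ⟨fun i => if hi : (i : ℕ) < k then g ⟨i, hi⟩ else 1, ?_, c, Subgroup.closure_mono ?_ hc⟩
  · intro i
    by_cases hi : (i : ℕ) < k
    · simp only [hi, dif_pos]; exact hg _
    · simp only [hi, dif_neg, not_false_iff]; exact (OmQ Q).one_mem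
  · rintro _ ⟨i, rfl⟩
    refine ⟨⟨i, lt_of_lt_of_le i.2 h⟩, ?_⟩
    simp only [i.2, dif_pos]

theorem Gq.one {Q : QuadraticForm F V} {y : Equiv.Perm V} (k : ℕ) : Gq Q y k 1 :=
  ⟨fun _ => 1, fun _ => (OmQ Q).one_mem, 1, by rw [sc_one, one_mul]; exact Subgroup.one_mem _⟩

/-- `y` itself. -/
theorem Gq.self {Q : QuadraticForm F V} (y : Equiv.Perm V) : Gq Q y 1 y := by
  refine ⟨fun _ => 1, fun _ => (OmQ Q).one_mem, 1, ?_⟩
  rw [sc_one, one_mul]
  refine Subgroup.subset_closure ⟨0, ?_⟩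
  simp

/-- Conjugating by `OmQ Q`. -/
theorem Gq.conj {Q : QuadraticForm F V} {y : Equiv.Perm V} {k : ℕ} {z : Equiv.Perm V}
    (hz : Gq Q y k z) {h : Equiv.Perm V} (hh : h ∈ OmQ Q) : Gq Q y k (h * z * h⁻¹) := by
  obtain ⟨g, hg, c, hc⟩ := hz
  refine ⟨fun i => h * g i, fun i => (OmQ Q).mul_mem hh (hg i), c, ?_⟩
  have e : sc V c * (h * z * h⁻¹) = MulAut.conj h (sc V c * z) := by
    rw [MulAut.conj_apply, ← mul_assoc, ← mul_assoc, ← mul_assoc, sc_comm (OmQ_le Q hh).1]
  rw [e]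
  have h1 : MulAut.conj h (sc V c * z) ∈
      (Subgroup.closure (Set.range fun i => g i * y * (g i)⁻¹)).map (MulAut.conj h).toMonoidHom :=
    Subgroup.mem_map_of_mem (MulAut.conj h).toMonoidHom hc
  rw [MonoidHom.map_closure] at h1
  refine Subgroup.closure_mono ?_ h1
  rintro _ ⟨_, ⟨i, rfl⟩, rfl⟩
  refine ⟨i, ?_⟩
  change h * g i * y * (h * g i)⁻¹ = h * (g i * y * (g i)⁻¹) * h⁻¹
  group

/-- The commutator of `y` and `t` is generated by two conjugates of `y`. -/
theorem Gq.comm {Q : QuadraticForm F V} {y t : Equiv.Perm V} (ht : t ∈ OmQ Q) :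
    Gq Q y 2 (y * t * y⁻¹ * t⁻¹) := by
  refine ⟨![1, t], ?_, 1, ?_⟩
  · intro i
    fin_cases i
    · exact (OmQ Q).one_mem
    · exact ht
  · rw [sc_one, one_mul]
    have e : y * t * y⁻¹ * t⁻¹ = (1 * y * 1⁻¹) * (t * y * t⁻¹)⁻¹ := by group
    rw [e]
    have h0 : (1 * y * 1⁻¹) ∈ Set.range fun i : Fin 2 =>
        (![1, t] : Fin 2 → Equiv.Perm V) i * y * ((![1, t] : Fin 2 → Equiv.Perm V) i)⁻¹ := ⟨0, rfl⟩
    have h1 : (t * y * t⁻¹) ∈ Set.range fun i : Fin 2 =>
        (![1, t] : Fin 2 → Equiv.Perm V) i * y * ((![1, t] : Fin 2 → Equiv.Perm V) i)⁻¹ := ⟨1, rfl⟩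
    exact Subgroup.mul_mem _ (Subgroup.subset_closure h0)
      (Subgroup.inv_mem _ (Subgroup.subset_closure h1))

/-- Powers of `z`. -/
theorem Gq.pow {Q : QuadraticForm F V} {y : Equiv.Perm V} {k : ℕ} {z : Equiv.Perm V}
    (hz : Gq Q y k z) (hzl : Lin F z) (j : ℕ) : Gq Q y k (z ^ j) := by
  obtain ⟨g, hg, c, hc⟩ := hz
  refine ⟨g, hg, c ^ j, ?_⟩
  have e : sc V (c ^ j) * z ^ j = (sc V c * z) ^ j := by
    have h1 : Commute (sc V c) z := (sc_comm hzl c).symm
    rw [h1.mul_pow]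
    congr 1
    exact map_pow (MulAction.toPermHom Fˣ V) c j
  rw [e]
  exact Subgroup.pow_mem _ hc j

/-- Powers of `y`. -/
theorem Gq.of_pow {Q : QuadraticForm F V} {y : Equiv.Perm V} {k : ℕ} {z : Equiv.Perm V}
    (j : ℕ) (hz : Gq Q (y ^ j) k z) : Gq Q y k z := by
  obtain ⟨g, hg, c, hc⟩ := hz
  refine ⟨g, hg, c, ?_⟩
  have : Subgroup.closure (Set.range fun i => g i * y ^ j * (g i)⁻¹) ≤
      Subgroup.closure (Set.range fun i => g i * y * (g i)⁻¹) := by
    rw [Subgroup.closure_le]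
    rintro _ ⟨i, rfl⟩
    have : g i * y ^ j * (g i)⁻¹ = (g i * y * (g i)⁻¹) ^ j := by
      rw [conj_pow]
    simp only [this]
    exact Subgroup.pow_mem _ (Subgroup.subset_closure (Set.mem_range_self i)) j
  exact this hc

/-! ### Further definitions -/

/-- All products of `k` commuting transvections are generated by `c` conjugates of `y`. -/
def Bc (Q : QuadraticForm F V) (y : Equiv.Perm V) (c k : ℕ) : Prop :=
  ∀ a : Fin k → V, Oq Q a → LinearIndependent F a → Gq Q y c (fq Q a)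

/-- All long root elements are generated by `c` conjugates of `y`. -/
def Bl (Q : QuadraticForm F V) (y : Equiv.Perm V) (c : ℕ) : Prop :=
  ∀ u d : V, LinearIndependent F ![u, d] → Q u = 0 → Q d = 0 → pb Q u d = 0 →
    Gq Q y c (sq Q u d)

/-- The data attached to an element `k` of order `r`: a finite field `K = F(σ)` over `F` and a linear map `j : K → V` with
`Q(j x + k (j y)) = tr(x² + σ x y + y²)` and `k (k (j c)) = k (j (σ c)) + j c`. -/
structure Dq {K : Type} [Field K] [Algebra F K] (Q : QuadraticForm F V) (k : Equiv.Perm V)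
    (σ : K) (j : K →ₗ[F] V) : Prop where
  s0 : σ ≠ 0
  ad : Algebra.adjoin F {σ} = ⊤
  s : ∀ c, k (j c) + k⁻¹ (j c) = j (σ * c)
  q : ∀ c, Q (j c) = Algebra.trace F K (c ^ 2)
  f : ∀ c c', pb Q (k (j c)) (j c') = Algebra.trace F K (σ * c * c')

/-- The projective group `PΩ(Q)` (the centre is trivial in characteristic two). -/
abbrev POmQ (Q : QuadraticForm F V) : Type := OmQ Q ⧸ Subgroup.center (OmQ Q)

/-- The automorphism `x` of `PΩ(Q)` is induced by a semisimilarity `y`. -/
def IsPGammaOQ (Q : QuadraticForm F V) (x : MulAut (POmQ Q)) : Prop :=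
  ∃ (y : Equiv.Perm V) (ψ : F ≃+* F) (ν : F), QSim Q y ψ ν ∧
    ∀ g h : OmQ Q, (h : Equiv.Perm V) = y * g * y⁻¹ →
      x (QuotientGroup.mk g) = QuotientGroup.mk h

end

end Pool.Agent.ORE
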