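import Pool.Agent.helper53.ORE.Spec

set_option autoImplicit false

namespace Pool.Agent.ORE

open Module Pool.Agent.GS

/-- `x` is induced by a semisimilarity of `Q` (for any subgroup `H` of the permutations). -/
def ALL_I {F V : Type} [Field F] [AddCommGroup V] [Module F V] (Q : QuadraticForm F V)
    (H : Subgroup (Equiv.Perm V)) (x : MulAut (H ⧸ Subgroup.center H)) : Prop :=
  ∃ (y : Equiv.Perm V) (ψ : F ≃+* F) (ν : F), QSim Q y ψ ν ∧
    ∀ g h : H, (h : Equiv.Perm V) = y * g * y⁻¹ →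
      x (QuotientGroup.mk g) = QuotientGroup.mk h

/-- The theorem for `H`. -/
def ALL_P {F V : Type} [Field F] [AddCommGroup V] [Module F V] (Q : QuadraticForm F V)
    (H : Subgroup (Equiv.Perm V)) : Prop :=
  (∀ x : MulAut (H ⧸ Subgroup.center H), ALL_I Q H x → x ≠ 1 → ∀ r : ℕ, r.Prime → r ≠ 2 →
    r ∣ Nat.card (H ⧸ Subgroup.center H) → ∃ β, IsLeast (CSet r x) β ∧ β ≤ r - 1) ∧
  ∃ x : MulAut (H ⧸ Subgroup.center H), ALL_I Q H x ∧ orderOf x = 2 ∧
    ∀ r : ℕ, r.Prime → r ≠ 2 → r ∣ Nat.card (H ⧸ Subgroup.center H) → ¬ r ∣ Nat.card F →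
      (∀ i, 1 ≤ i → i < r - 1 → ¬ r ∣ Nat.card F ^ i - 1) → IsLeast (CSet r x) (r - 1)

theorem ALL_sim {F V : Type} [Field F] [AddCommGroup V] [Module F V] {Q : QuadraticForm F V}
    (h2 : (2 : F) ≠ 0) (y : Equiv.Perm V) (ψ : F ≃+* F) (ν : F) :
    Sim (pb Q) y ψ ν ↔ QSim Q y ψ ν := by
  constructor
  · intro h
    refine ⟨h.ne, h.add, h.smul, fun v => ?_⟩
    have h1 := h.form v v
    rw [pb_self, pb_self, map_mul] at h1
    have h3 : ψ (2 : F) = 2 := map_ofNat ψ 2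
    rw [h3] at h1
    apply mul_left_cancel₀ h2
    rw [h1]
    ring
  · intro h
    exact h.sim

theorem ALL_SpG {F V : Type} [Field F] [AddCommGroup V] [Module F V] {Q : QuadraticForm F V}
    (h2 : (2 : F) ≠ 0) : SpG (pb Q) = OQ Q := by
  apply le_antisymm _ (OQ_le_SpG Q)
  rintro g ⟨hg, hB⟩
  refine ⟨hg, fun v => ?_⟩
  have h1 := hB v v
  rw [pb_self, pb_self] at h1
  exact mul_left_cancel₀ h2 h1

theorem ALL_Om {F V : Type} [Field F] [AddCommGroup V] [Module F V] {Q : QuadraticForm F V}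
    (h2 : (2 : F) ≠ 0) : ORT.Om (pb Q) = OmQ Q := by
  unfold ORT.Om OmQ
  rw [ALL_SpG h2]

theorem ALL (fin : FIN_stmt) (ofin : ORT.FIN_stmt) (sb : GS.SB_stmt) : ALL_stmt := by
  intro F V _ _ _ _ _ Q hN hn
  by_cases h2 : (2 : F) = 0
  · have hA : Alt (pb Q) := ⟨fun x => pb_self2 h2 Q x, hN⟩
    obtain ⟨n, b, _⟩ := sb (pb Q) hA
    have hd : finrank F V = n + n := by
      rw [finrank_eq_card_basis b, Fintype.card_sum, Fintype.card_fin]
    exact fin Q h2 hN (by omega)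
  · have hc : ringChar F ≠ 2 := by
      intro h
      apply h2
      have h3 : ((ringChar F : ℕ) : F) = 0 := ringChar.Nat.cast_ringChar
      rw [h] at h3
      exact_mod_cast h3
    have hS : Sym (pb Q) := ⟨fun x y => pb_symm Q x y, hN⟩
    have key : ALL_P Q (ORT.Om (pb Q)) := by
      obtain ⟨k1, k2⟩ := ofin (pb Q) hc hS hn
      have hI : ∀ x : MulAut (ORT.POm (pb Q)), ORT.IsPGammaO (pb Q) x ↔
          ALL_I Q (ORT.Om (pb Q)) x := by
        intro x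
        constructor
        · rintro ⟨y, ψ, ν, hy, hx⟩
          exact ⟨y, ψ, ν, (ALL_sim h2 y ψ ν).1 hy, hx⟩
        · rintro ⟨y, ψ, ν, hy, hx⟩
          exact ⟨y, ψ, ν, (ALL_sim h2 y ψ ν).2 hy, hx⟩
      refine ⟨fun x hx => k1 x ((hI x).2 hx), ?_⟩
      obtain ⟨x, hx, hxx⟩ := k2
      exact ⟨x, (hI x).1 hx, hxx⟩
    rw [ALL_Om h2] at key
    exact key

end Pool.Agent.ORE
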