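import Pool.Agent.helper83.ORE.SpecDE

set_option autoImplicit false

namespace Pool.Agent.ORE

open Module Pool.Agent.GS

theorem EZ (rp : RP_stmt) (sg : SGQ_stmt) (w2 : W2_stmt) (erk : ERK_stmt) (e2 : E2R_stmt)
    (ex : EX4_stmt) (e4 : E4R_stmt) : EZ_stmt := by
  intro F V _ _ _ _ _ Q h2 hN hn y hy l hl hyl hy1 hrq
  have hRO : RO Q := fun a b ha hb => rp Q h2 hN hn a b ha hb
  have hSO : SO Q := fun u d hu hd => sg Q h2 hN hn u d hu hd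
  have hWP : WP Q := fun a b c d hab hcd h1 h3 h4 => w2 Q h2 hN hn a b c d hab hcd h1 h3 h4
  by_cases hc : (¬ ∃ c : F, ∀ v, y v + y⁻¹ v = c • v) ∨ ∃ b, Q b ≠ 0 ∧ y b = b
  · obtain ⟨a, b, ha, hb, hab, hG⟩ := erk Q h2 hN (by omega) hRO y hy hy1 hc
    exact e2 Q h2 hN hn hRO hWP y a b ha hb hab hG
  · rw [not_or, not_not, not_exists] at hc
    obtain ⟨⟨τ, hτ⟩, hf⟩ := hc
    have hf' : ∀ v, y v = v → Q v = 0 := by
      intro v hv
      by_contra h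
      exact hf v ⟨h, hv⟩
    obtain ⟨a₁, a₂, a₃, a₄, q1, q2, q3, q4, b12, b13, b14, b23, b24, b34, c11, c22, c33, c44,
      c12, c21, c34, c43, c13, c14, c23, c24, c31, c32, c41, c42⟩ := ex Q h2 hN hn y hy τ hτ hf'
    obtain ⟨h, hh, hG, hS⟩ := e4 Q h2 hN hSO y hy a₁ a₂ a₃ a₄ q1 q2 q3 q4 b12 b13 b14 b23 b24
      b34 c11 c22 c33 c44 c12 c21 c34 c43 c13 c14 c23 c24 c31 c32 c41 c42
    exact ⟨h, hh, hG.mono (by norm_num), hS⟩

end Pool.Agent.ORE
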