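import Pool.Agent.helper53.ORE.Basic
import Pool.Agent.helper53.ORT.Spec

/-!
# Project ore (MP_561ff4_al): Q1 for the orthogonal groups in characteristic two. Specification (parts G, A, C, F, r = 3 and assembly)

THEOREM. `F` finite of characteristic 2, `V` of dimension `n ≥ 8`, `Q` a nondegenerate quadratic form, `S = Ω(Q)`, `r` an odd prime dividing `|S|`, `x ≠ 1` an automorphism of
`S` induced by a semisimilarity. Then `r - 1` conjugates of `x` generate a group of order divisible by `r`. Page: /team-store/MP_561ff4_EVEN_helper83.md.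

Rules: `XX_stmt` is proved in `Pool/Agent/<seat>/ORE/XX.lean`: `import Pool.Agent.helper53.ORE.Spec`, `set_option autoImplicit false`, `namespace Pool.Agent.ORE`,
`open Module Pool.Agent.GS`, `theorem XX (h : YY_stmt) ... : XX_stmt`; hypotheses: any EARLIER statements of this file, statements `ORT.ZZ_stmt` (Pool/Agent/helper53/ORT/Spec.lean) and
`GS.ZZ_stmt` (Pool/Agent/helper22/GS/Spec.lean), all proved. Auxiliary lemmas are prefixed `XX_`. No `convert`, no `congr!`, no double quotes.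

`Basic.lean` has the API: `pb Q` (polar form): `Q_add`, `Q_smul`, `Q_sum`, `pb_symm`, `pb_self2`; characteristic two (`h2 : (2 : F) = 0`): `neg2`, `add2`, `sub2`, `addV`, `negV`, `subV`, `eq_of_add2`, `eq_of_addV`,
`charP2`; `Nd Q`; `OQ Q`, `OQ_pb`, `OmQ Q`, `OmQ_le`, `OmQ_conj`; `QSim`, `QSim.pb`, `QSim.sim`, `QSim_of_mem`; transvections `rq Q a` (`Q a ≠ 0`): `rq_apply`, `rq_of_orth`, `rq_self`, `rq_swap`, `rq_sq`, `rq_inv`, `rq_mem`, `rq_conj`,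
`rq_conj_mem`, `rq_smul`, `rq_comm`; Siegel elements `sq Q u d` (`Q u = 0`, `B(u,d) = 0`): `sq_apply`, `sq_sq`, `sq_inv`, `sq_mem`, `sq_conj`, `sq_conj_mem`, `sq_add`, `sq_eq_rq`; families `Oq`, `fq`: `fq_apply`, `fq_sq`, `fq_inv`, `fq_of_orth`,
`fq_mem`, `fq_conj`, `fq_equiv`, `fq_sum`, `fq_comm`, `fq_unique`, `fq_two`; `Gq`: `Gq.mul`, `Gq.mono`, `Gq.one`, `Gq.self`, `Gq.conj`, `Gq.comm`, `Gq.pow`, `Gq.of_pow`; `Bc`, `Bl`, `Dq`, `POmQ`, `IsPGammaOQ`. From GS: `Lin`, `NSc`, `NS`, `sc`, `pinv`, `invp`,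
`CSet`, `GenDvd`. In the docstrings `B = pb Q`, `[y,t] = y t y⁻¹ t⁻¹`, singular means `Q v = 0`. Every element of a finite field of characteristic 2 is a square (`FiniteField.isSquare_of_char_two`). If `z ∈ OQ Q` and `z^i = c` is a scalar then `c² = 1`, `c = 1` (`Q ≠ 0`).
-/

set_option autoImplicit false
set_option linter.unusedVariables false

namespace Pool.Agent.ORE

open Module Pool.Agent.GS

open scoped BigOperators

noncomputable section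

/-- `y` as a linear map. -/
def Ly {F V : Type} [Field F] [AddCommGroup V] [Module F V] (y : Equiv.Perm V) (hy : Lin F y) :
    V →ₗ[F] V :=
  { toFun := y, map_add' := hy.1, map_smul' := hy.2 }

/-- The quadratic form `v ↦ B(v, y v)`. -/
def qy {F V : Type} [Field F] [AddCommGroup V] [Module F V] (Q : QuadraticForm F V)
    (y : Equiv.Perm V) (hy : Lin F y) : QuadraticForm F V :=
  LinearMap.BilinMap.toQuadraticMap ((pb Q).compl₂ (Ly y hy))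

theorem qy_apply {F V : Type} [Field F] [AddCommGroup V] [Module F V] (Q : QuadraticForm F V)
    (y : Equiv.Perm V) (hy : Lin F y) (v : V) : qy Q y hy v = pb Q v (y v) := rfl

theorem qy_pb {F V : Type} [Field F] [AddCommGroup V] [Module F V] (Q : QuadraticForm F V)
    (y : Equiv.Perm V) (hy : Lin F y) (u v : V) :
    pb (qy Q y hy) u v = pb Q u (y v) + pb Q v (y u) := by
  have h1 := Q_add (qy Q y hy) u v
  rw [qy_apply, qy_apply, qy_apply, hy.1, map_add, map_add, LinearMap.add_apply,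
    LinearMap.add_apply] at h1
  linear_combination -h1

/-! ## G. Geometry -/

/-- CWQ (Chevalley - Warning). On `U` every quadratic form is `u ↦ b(u,u)` for a bilinear form `b` (`QuadraticMap.toBilin` with a basis of `U`): GS.CW_stmt and ORT.CW2_stmt for the space `U`. (`Q.comp U.subtype`.) -/
def CWQ_stmt : Prop := ∀ {F V : Type} [Field F] [Finite F] [AddCommGroup V] [Module F V]
  [FiniteDimensional F V] (Q Q' : QuadraticForm F V),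
  (∀ U : Submodule F V, 3 ≤ finrank F U → ∃ u ∈ U, u ≠ 0 ∧ Q u = 0) ∧
  (∀ U : Submodule F V, 5 ≤ finrank F U → ∃ u ∈ U, u ≠ 0 ∧ Q u = 0 ∧ Q' u = 0)

/-- NSV (nonsingular vectors orthogonal to few vectors). `D = {c | B(c, x i) = 0}`, `dim D ≥ n - k > n/2`. If `Q = 0` on `D` then `B = 0` on `D`, `D ⊆ D^⊥`, `dim D ≤ n/2` (`LinearMap.BilinForm.finrank_orthogonal`). So `Q c ≠ 0` for some `c ∈ D`; divide by the square root of `Q c`. -/
def NSV_stmt : Prop := ∀ {F V : Type} [Field F] [Finite F] [AddCommGroup V] [Module F V]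
  [FiniteDimensional F V] (Q : QuadraticForm F V), (2 : F) = 0 → Nd Q →
  ∀ (k : ℕ) (x : Fin k → V), 2 * k < finrank F V → ∃ c, (∀ i, pb Q c (x i) = 0) ∧ Q c = 1

/-- MID. `D = x^⊥`; `B(v, ·)` and `B(w, ·)` are not zero on `D` (`v, w ∉ F x = D^⊥`), so there is `c₀ ∈ D` with `B(c₀,v) ≠ 0`, `B(c₀,w) ≠ 0` (a space is not the union of two proper subspaces: if `B(c₁,v) ≠ 0 = B(c₁,w)` and `B(c₂,w) ≠ 0 = B(c₂,v)` take `c₁ + c₂`). If `Q c₀ = 0`: `E = ⟨x,v,w,c₀⟩^⊥` has dimension at least `n - 4`. If `Q = 0` on `E`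
then `B = 0` on `E`, `E ⊆ E^⊥ = ⟨x,v,w,c₀⟩`, so `n = 8` and `E = ⟨x,v,w,c₀⟩` by dimensions, but `B(c₀,v) ≠ 0`: contradiction. So `Q e ≠ 0` for some `e ∈ E`; `c = c₀ + e`: `Q c = Q e`. -/
def MID_stmt : Prop := ∀ {F V : Type} [Field F] [Finite F] [AddCommGroup V] [Module F V]
  [FiniteDimensional F V] (Q : QuadraticForm F V), (2 : F) = 0 → Nd Q → 8 ≤ finrank F V →
  ∀ x v w : V, (∀ c : F, v ≠ c • x) → (∀ c : F, w ≠ c • x) →
  ∃ c, pb Q c x = 0 ∧ pb Q c v ≠ 0 ∧ pb Q c w ≠ 0 ∧ Q c ≠ 0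

/-- ST1 (one step of Witt's theorem; uses MID). `v = w`: `g = 1`. `B(v,w) ≠ 0`: `g = rq (v + w)` (`rq_swap`, `rq_of_orth` for `x`). Otherwise MID: `c`; `z = v + (B(v,c)/Q(c)) c`: `Q z = Q v`, `B(z,v) ≠ 0`, `B(z,w) ≠ 0` (as `B(v,w) = 0`), `B(z,x) = B(v,x)`. `g = rq (z + w) * rq (v + z)`. -/
def ST1_stmt : Prop := ∀ {F V : Type} [Field F] [Finite F] [AddCommGroup V] [Module F V]
  [FiniteDimensional F V] (Q : QuadraticForm F V), (2 : F) = 0 → Nd Q → 8 ≤ finrank F V →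
  ∀ x v w : V, (∀ c : F, v ≠ c • x) → (∀ c : F, w ≠ c • x) → Q v = Q w →
  pb Q v x = pb Q w x → ∃ g ∈ Subgroup.closure (Set.range (rq Q)), g x = x ∧ g v = w

/-- RP (products of two transvections; uses ST1). `b' = s b` with `s² = Q a / Q b`: `Q b' = Q a`, `rq b' = rq b` (`rq_smul`). ST1 with `x = 0`: `g a = b'`, `g ∈ OQ Q`, `g (rq a) g⁻¹ = rq b`. `rq a * rq b = rq a g (rq a)⁻¹ g⁻¹` is a commutator (`rq_inv`). -/
def RP_stmt : Prop := ∀ {F V : Type} [Field F] [Finite F] [AddCommGroup V] [Module F V]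
  [FiniteDimensional F V] (Q : QuadraticForm F V), (2 : F) = 0 → Nd Q → 8 ≤ finrank F V →
  ∀ a b : V, Q a ≠ 0 → Q b ≠ 0 → rq Q a * rq Q b ∈ OmQ Q

/-- CLQ (uses RP). The set of all `g ∈ OQ Q` with `g ∈ OmQ Q` or `rq b * g ∈ OmQ Q` contains all `rq a` (if `Q a ≠ 0`: RP; otherwise `rq a = 1`) and is closed under products and inverses: `OmQ Q` is normal in `OQ Q` (`OmQ_conj`) and `rq b * rq b = 1`. `Subgroup.closure_induction`. -/
def CLQ_stmt : Prop := ∀ {F V : Type} [Field F] [Finite F] [AddCommGroup V] [Module F V]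
  [FiniteDimensional F V] (Q : QuadraticForm F V), (2 : F) = 0 → Nd Q → 8 ≤ finrank F V →
  ∀ b : V, Q b ≠ 0 → ∀ g ∈ Subgroup.closure (Set.range (rq Q)), g ∈ OmQ Q ∨ rq Q b * g ∈ OmQ Q

/-- W2 (pairs; uses ST1, CLQ, NSV). ST1 with `x = 0`: `g₁ x = x'`; ST1 with `x := x'`, `v := g₁ v`, `w := v'`: `g₂`. `g = g₂ g₁`. NSV (`k = 2`): `b` orthogonal to `x', v'` with `Q b = 1`; `rq b` fixes `x'` and `v'`; CLQ. -/
def W2_stmt : Prop := ∀ {F V : Type} [Field F] [Finite F] [AddCommGroup V] [Module F V]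
  [FiniteDimensional F V] (Q : QuadraticForm F V), (2 : F) = 0 → Nd Q → 8 ≤ finrank F V →
  ∀ x v x' v' : V, LinearIndependent F ![x, v] → LinearIndependent F ![x', v'] → Q x = Q x' →
  Q v = Q v' → pb Q x v = pb Q x' v' → ∃ g ∈ OmQ Q, g x = x' ∧ g v = v'

/-- SGQ (Siegel elements; uses RP, NSV). `Q d ≠ 0`: `sq_eq_rq` and RP (`Q (d + Q(d) u) = Q d`). `Q d = 0`: NSV: `e` orthogonal to `u, d` with `Q e = 1`; `sq u d = sq u (d + e) * sq u e` (`sq_add`). -/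
def SGQ_stmt : Prop := ∀ {F V : Type} [Field F] [Finite F] [AddCommGroup V] [Module F V]
  [FiniteDimensional F V] (Q : QuadraticForm F V), (2 : F) = 0 → Nd Q → 8 ≤ finrank F V →
  ∀ u d : V, Q u = 0 → pb Q u d = 0 → sq Q u d ∈ OmQ Q

/-- BLW (one long root element is enough; uses W2). W2 for `(u,d)` and the given pair, `sq_conj_mem`, `Gq.conj`. -/
def BLW_stmt : Prop := ∀ {F V : Type} [Field F] [Finite F] [AddCommGroup V] [Module F V]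
  [FiniteDimensional F V] (Q : QuadraticForm F V), (2 : F) = 0 → Nd Q → 8 ≤ finrank F V →
  ∀ (y : Equiv.Perm V) (c : ℕ) (u d : V), LinearIndependent F ![u, d] → Q u = 0 → Q d = 0 →
  pb Q u d = 0 → Gq Q y c (sq Q u d) → Bl Q y c

/-- PEW (one product of two transvections is enough; uses W2). First part: W2, `rq_conj_mem`, `Gq.conj`. Second part: scale `a`, `b` to `Q = 1` (`rq_smul`), first part, `fq_two` (a family `x : Fin 2 → V` is `![x 0, x 1]`). -/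
def PEW_stmt : Prop := ∀ {F V : Type} [Field F] [Finite F] [AddCommGroup V] [Module F V]
  [FiniteDimensional F V] (Q : QuadraticForm F V), (2 : F) = 0 → Nd Q → 8 ≤ finrank F V →
  ∀ (y : Equiv.Perm V) (c : ℕ),
  (∀ a b a' b' : V, LinearIndependent F ![a, b] → LinearIndependent F ![a', b'] → Q a = 1 →
    Q b = 1 → Q a' = 1 → Q b' = 1 → pb Q a b = pb Q a' b' → Gq Q y c (rq Q a * rq Q b) →
    Gq Q y c (rq Q a' * rq Q b')) ∧
  ∀ a b : V, LinearIndependent F ![a, b] → Q a ≠ 0 → Q b ≠ 0 → pb Q a b = 0 →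
    Gq Q y c (rq Q a * rq Q b) → Bc Q y c 2

/-- BLC (a product of two orthogonal transvections is a product of two long root elements; uses NSV). Family `a, b` with `Q = 1`: `u = a + b` is singular, `fq ![a,b] = rq a * rq b = sq u a` (`fq_two`, `sq_eq_rq`; `a + Q(a) u = b`). There is `e₀` with `B(u,e₀) = 0`, `B(a,e₀) = 1`
(`u, a` independent, `B` nondegenerate); NSV (`k = 3`): `x` orthogonal to `u, a, e₀` with `Q x = 1`, `e = e₀ + s x`, `s² = Q e₀`: `Q e = 0`. `Q (a + e) = 1 + B(a,e) = 0`. `sq u a = sq u e * sq u (a + e)` (`sq_add`). Both are long root elements (`e, a + e ∉ F u`, as `B(a, ·) ≠ 0` on them and `B(a,u) = 0`). `Gq.mul`. -/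
def BLC_stmt : Prop := ∀ {F V : Type} [Field F] [Finite F] [AddCommGroup V] [Module F V]
  [FiniteDimensional F V] (Q : QuadraticForm F V), (2 : F) = 0 → Nd Q → 8 ≤ finrank F V →
  ∀ (y : Equiv.Perm V) (c : ℕ), Bl Q y c → Bc Q y (2 * c) 2

/-! ## A. Elements of order `r` -/

/-- KAQ (a minimal subspace). The proof of ORT.KDA (Pool/Agent/helper61/ORT/KDA.lean) works in characteristic two for the symmetric nondegenerate form `pb Q` (it does not use `ringChar F ≠ 2`): copy it; `(r : F) = 1` as `r` is odd. -/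
def KAQ_stmt : Prop := ∀ {F V : Type} [Field F] [Finite F] [AddCommGroup V] [Module F V]
  [FiniteDimensional F V] (Q : QuadraticForm F V), (2 : F) = 0 → Nd Q →
  ∀ k ∈ OQ Q, ∀ r : ℕ, r.Prime → r ≠ 2 → k ^ r = 1 → k ≠ 1 →
  ∃ (S : V →ₗ[F] V) (U : Submodule F V), (∀ v, S v = k v + k⁻¹ v) ∧ U ≠ ⊥ ∧ (∀ u ∈ U, k u ∈ U) ∧
    (∀ u ∈ U, k u = u → u = 0) ∧ (∀ u ∈ U, (∀ w ∈ U, pb Q u w = 0) → u = 0) ∧
    ∀ p : Polynomial F, (∀ u ∈ U, Polynomial.aeval S p u = 0) ∨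
      (∀ u ∈ U, Polynomial.aeval S p u = 0 → u = 0)

/-- KDQ (the field `K`; uses KAQ, ORT.KDP, GS.BF; compare Pool/Agent/helper36/ORT/KDB.lean). `S` is self-adjoint, `B(v, p(S) v) = 0` for all `p` (`B(v, S w) + B(w, S v) = 0` and `B(v,Sv) = B(v,kv) + B(kv,v) = 0`; `B(p(S)v,q(S)v) = 0` by self-adjointness and induction).
There is `v ∈ U` with `B(k v, v) ≠ 0`: otherwise, polarising, `B(S v, w) = 0` on `U`, `S = 0` on `U`, `k² = 1` on `U`, `k = 1` on `U` (`r` odd). As in KDB: `f` irreducible generating the polynomials with `f(S) v = 0`, `K = AdjoinRoot f`, `σ` = root, `j₀(p(σ)) = p(S) v`,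
`Algebra.adjoin F {σ} = ⊤`, `B(k v, j₀ c) = tr(β c)`, `β ≠ 0` (GS.BF), so `B(k j₀ c, j₀ c') = tr(β c c')` (`S` self-adjoint, commutes with `k`). `σ ≠ 0` (`S v = 0` gives `k² v = v`, `k v = v`). `Q(S w) = Q(k w + k⁻¹ w) = 2 Q w + B(k w, k⁻¹ w) = B(k² w, w) = B(k w, k⁻¹ w)`, and `k⁻¹ w = k w + S w`:
`B(k w, k⁻¹ w) = B(k w, S w)`. For `w = j₀ c`: `Q(j₀(σ c)) = tr(β σ c²)`, so `Q(j₀ c) = tr((β/σ) c²)`. `γ² = β/σ` in the finite field `K`; `j c = j₀ (γ⁻¹ c)`. Degree: ORT.KDP with `2n+1 = r`: `f` divides `G n`, `natDegree f ≤ n`. -/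
def KDQ_stmt : Prop := ∀ {F V : Type} [Field F] [Finite F] [AddCommGroup V] [Module F V]
  [FiniteDimensional F V] (Q : QuadraticForm F V), (2 : F) = 0 → Nd Q →
  ∀ k ∈ OQ Q, ∀ r : ℕ, r.Prime → r ≠ 2 → k ^ r = 1 → k ≠ 1 →
  ∃ (K : Type) (_ : Field K) (_ : Algebra F K) (_ : Finite K) (_ : FiniteDimensional F K)
    (σ : K) (j : K →ₗ[F] V), Dq Q k σ j ∧ 2 * finrank F K + 1 ≤ r

/-- DQI (basic facts on `Dq`; uses GS.BF). Injectivity: `B(j x + k j y, j c') = tr(σ y c')` for all `c'` gives `y = 0` (`B(jx, jc') = 0`: `Q(j(c+c')) = tr((c+c')²) = Q(jc) + Q(jc')` in characteristic two; the trace form is nondegenerate), then `Q`.. : `j x = 0` gives `tr(σ x c') = B(k j x, j c') = 0`, `x = 0`. `k (k (j c)) = k (j (σ c)) + j c` from `s` (apply `k`).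
No fixed vectors: `w = j x + k j y`, `k w = j y + k j (x + σ y)`, so `k w = w` gives `x = y`, `σ y = 0`. If `k^i = 1` on all `j x + k j y` then `r ∣ i` (`k ≠ 1` on them, `k^r = 1`, `r` prime). -/
def DQI_stmt : Prop := ∀ {F V K : Type} [Field F] [Finite F] [AddCommGroup V] [Module F V]
  [Field K] [Algebra F K] [Finite K] [FiniteDimensional F K] (Q : QuadraticForm F V),
  (2 : F) = 0 → ∀ k ∈ OQ Q, ∀ (σ : K) (j : K →ₗ[F] V), Dq Q k σ j →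
  (∀ c c', pb Q (j c) (j c') = 0) ∧ (∀ c, k (k (j c)) = k (j (σ * c)) + j c) ∧
  (∀ x y, j x + k (j y) = 0 → x = 0 ∧ y = 0) ∧
  (∀ x y, k (j x + k (j y)) = j x + k (j y) → x = 0 ∧ y = 0) ∧
  ∀ r : ℕ, r.Prime → k ^ r = 1 → ∀ i : ℕ,
    (∀ c, (k ^ i) (j c) = j c) → r ∣ i

/-- ORD (the degree of `K` is the order of `q²` modulo `r`; uses DQI). (⇐) `k` acts without fixed points on the `q^(2m) - 1` nonzero vectors `j x + k j y`: `r ∣ q^(2m) - 1` (`card_modEq_card_fixedPoints` or orbits; compare ORT.LRB, GS.PD), `m = finrank F K`, and `q^(2m) - 1 ∣ q^(2i) - 1` if `m ∣ i`. (⇒) `r ∣ q^(2i) - 1 = (q^i - 1)(q^i + 1)`,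
so `k^(q^i) = k` or `k⁻¹`. `q^i` is a power of 2, `k, k⁻¹` commute: with `S = k + k⁻¹`, `S^(q^i) = k^(q^i) + k^(-q^i) = S` (`add_pow_char_pow` in a commutative subring, or iterate `(a+b)² = a² + b²` for commuting linear maps in characteristic two). `S^(q^i) (j c) = j(σ^(q^i) c)`, so `σ^(q^i) = σ` and `x^(q^i) = x` for all
`x ∈ F[σ] = K`; `K^*` is cyclic of order `q^m - 1`, so `q^m - 1 ∣ q^i - 1`, `m ∣ i`. -/
def ORD_stmt : Prop := ∀ {F V K : Type} [Field F] [Finite F] [AddCommGroup V] [Module F V]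
  [Field K] [Algebra F K] [Finite K] [FiniteDimensional F K] (Q : QuadraticForm F V),
  (2 : F) = 0 → ∀ k ∈ OQ Q, ∀ (σ : K) (j : K →ₗ[F] V), Dq Q k σ j →
  ∀ r : ℕ, r.Prime → r ≠ 2 → k ^ r = 1 →
  ∀ i : ℕ, r ∣ Nat.card F ^ (2 * i) - 1 ↔ finrank F K ∣ i

/-- FER (uses ORD). `m = finrank F K = 2^a`. By Fermat `r ∣ q^(r-1) - 1`, `r - 1 = 2 i`, so `m ∣ i`, `r - 1 = 2 m t`. `t ≥ 2`: `4m + 1 ≤ r`. `t = 1`: `r = 2^(a+1) + 1`, so `2^(2(a+1)) ≡ 1` modulo `r` and (as `q` is a power of 2) `r ∣ q^(2(a+1)) - 1`, `m ∣ a + 1`, `2^a ≤ a + 1`, `a = 1`. -/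
def FER_stmt : Prop := ∀ {F V K : Type} [Field F] [Finite F] [AddCommGroup V] [Module F V]
  [Field K] [Algebra F K] [Finite K] [FiniteDimensional F K] (Q : QuadraticForm F V),
  (2 : F) = 0 → ∀ k ∈ OQ Q, ∀ (σ : K) (j : K →ₗ[F] V), Dq Q k σ j →
  ∀ r : ℕ, r.Prime → r ≠ 2 → k ^ r = 1 → ∀ a : ℕ, 1 ≤ a → finrank F K = 2 ^ a →
  r = 5 ∨ 4 * finrank F K + 1 ≤ r

/-- ONB (orthonormal bases for the trace form; uses GS.BF). General lemma: `b` symmetric, nondegenerate, not alternating on a space `H` of dimension `n ≥ 1` over a finite field of characteristic two: there is an orthonormal basis. Induction: `x ↦ b(x,x)` is additive, `b(cx,cx) = c² b(x,x)`, so it is `b(x,w)²` for some `w ≠ 0`. Take `x` with `b(x,x) = 1` and, if `n ≥ 2`, `x ∉ F w`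
(`{x | b(x,w) = 1}` has at least `q^(n-1) ≥ 2` elements, only one of them in `F w`). Then `x^⊥` is a complement of `F x`, nondegenerate, and not alternating (if `b(z,w) = 0` for all `z ∈ x^⊥` then `w ∈ F x`). The trace form is nondegenerate (GS.BF), and `tr(x²) ≠ 0` for some `x` (all elements of `K` are squares, `tr ≠ 0`). -/
def ONB_stmt : Prop := ∀ {F K : Type} [Field F] [Field K] [Algebra F K] [Finite K]
  [FiniteDimensional F K], (2 : F) = 0 → ∃ u : Basis (Fin (finrank F K)) F K,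
  ∀ i j, Algebra.trace F K (u i * u j) = if i = j then 1 else 0

/-- ATH (the commutator of `k` and an involution; uses DQI, ONB). `a i = j (u i)`: `Q(a i) = tr(u i²) = 1`. `T = fq Q a`: `T (j c) = j c`, `T (k j c) = k j c + ∑ tr(σ c u_i) j u_i = k j c + j(σ c) = k⁻¹ j c`. So `T k T = k⁻¹` on `W = j K + k j K`, `h = k T k⁻¹ T` is `k²` on `W`. `h^i = c` gives `c = 1`, `k^(2i) = 1` on `j K`, `r ∣ 2i` (DQI).
`h ∈ OmQ Q` is a commutator (`fq_inv`, `fq_mem`). -/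
def ATH_stmt : Prop := ∀ {F V K : Type} [Field F] [Finite F] [AddCommGroup V] [Module F V]
  [Field K] [Algebra F K] [Finite K] [FiniteDimensional F K] (Q : QuadraticForm F V),
  (2 : F) = 0 → ∀ k ∈ OQ Q, ∀ (σ : K) (j : K →ₗ[F] V), Dq Q k σ j →
  ∀ r : ℕ, r.Prime → r ≠ 2 → k ^ r = 1 → ∃ a : Fin (finrank F K) → V, Oq Q a ∧
  LinearIndependent F a ∧ k * fq Q a * k⁻¹ * fq Q a ∈ OmQ Q ∧
  NS F r (k * fq Q a * k⁻¹ * fq Q a)

/-- TVW (all transvections; uses ST1, CLQ). Scale `b` to `b'` with `Q b' = Q a`; ST1 with `x = 0`: `g a = b'`; CLQ: `g` or `rq b' * g` is in `OmQ Q`, and `rq b'` fixes `b'`; `rq_conj_mem`, `Gq.conj`, `rq_smul`. -/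
def TVW_stmt : Prop := ∀ {F V : Type} [Field F] [Finite F] [AddCommGroup V] [Module F V]
  [FiniteDimensional F V] (Q : QuadraticForm F V), (2 : F) = 0 → Nd Q → 8 ≤ finrank F V →
  ∀ (y : Equiv.Perm V) (c : ℕ) (a : V), Q a ≠ 0 → Gq Q y c (rq Q a) →
  ∀ b : V, Q b ≠ 0 → Gq Q y c (rq Q b)

/-- ATV (transvections; uses ATH). `fq Q b` for an orthogonal family `b : Fin m → V` is a product of `m` transvections (`Fin.snoc`/`Fin.cons` or `fq_sum`, `fq_unique`, `fq_equiv` by induction on `m`): `Gq Q y m (fq Q b)`. `k (fq a) k⁻¹ = fq (k a)` (`fq_conj`). `h = fq (k a) * fq a`. -/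
def ATV_stmt : Prop := ∀ {F V K : Type} [Field F] [Finite F] [AddCommGroup V] [Module F V]
  [Field K] [Algebra F K] [Finite K] [FiniteDimensional F K] (Q : QuadraticForm F V),
  (2 : F) = 0 → ∀ k ∈ OQ Q, ∀ (σ : K) (j : K →ₗ[F] V), Dq Q k σ j →
  ∀ r : ℕ, r.Prime → r ≠ 2 → k ^ r = 1 → ∀ y : Equiv.Perm V,
  (∀ b : V, Q b ≠ 0 → Gq Q y 1 (rq Q b)) →
  ∃ h ∈ OmQ Q, Gq Q y (2 * finrank F K) h ∧ NS F r h

/-- AEV (pairs; uses ATH). `m = 2l`. For an orthogonal independent family `b : Fin (2l) → V`: `Gq Q y (c l) (fq Q b)`: the indices in pairs (`finProdFinEquiv : Fin l × Fin 2 ≃ Fin (l * 2)`, or induction on `l` with `fq_sum`, `fq_equiv`). `h = fq (k a) * fq a`: `2 c l = c m`. -/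
def AEV_stmt : Prop := ∀ {F V K : Type} [Field F] [Finite F] [AddCommGroup V] [Module F V]
  [Field K] [Algebra F K] [Finite K] [FiniteDimensional F K] (Q : QuadraticForm F V),
  (2 : F) = 0 → ∀ k ∈ OQ Q, ∀ (σ : K) (j : K →ₗ[F] V), Dq Q k σ j →
  ∀ r : ℕ, r.Prime → r ≠ 2 → k ^ r = 1 → ∀ (y : Equiv.Perm V) (c : ℕ), Bc Q y c 2 →
  Even (finrank F K) → ∃ h ∈ OmQ Q, Gq Q y (c * finrank F K) h ∧ NS F r h

/-- DRK (uses DQI). `K = F` (`finrank = 1`: `algebraMap` is bijective), `σ = algebraMap s`, `s ≠ 0`. On the plane `⟨j 1, k j 1⟩` the map `k` satisfies `k² = s k + 1`. Let `M` have determinant 1 and trace `s`: `M² = s M + 1` (Cayley - Hamilton), so `M^i = A_i M + B_i` and `k^i = A_i k + B_i` on the plane with the same `A_i, B_i ∈ F` (recursion). If `M^i = 1` then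
`A_i = 0` (otherwise `M` is a scalar `c`, `c² = 1`, `M = 1`, `s = 2 = 0`), `B_i = 1`, so `k^i = 1` on the plane, `r ∣ i`. -/
def DRK_stmt : Prop := ∀ {F V K : Type} [Field F] [Finite F] [AddCommGroup V] [Module F V]
  [Field K] [Algebra F K] [Finite K] [FiniteDimensional F K] (Q : QuadraticForm F V),
  (2 : F) = 0 → ∀ k ∈ OQ Q, ∀ (σ : K) (j : K →ₗ[F] V), Dq Q k σ j →
  ∀ r : ℕ, r.Prime → r ≠ 2 → k ^ r = 1 → finrank F K = 1 → ∃ s : F, s ≠ 0 ∧ ORT.Dr r s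

/-- HYP (hyperbolic pairs; uses CWQ, NSV). First part: a singular vector `u ≠ 0` (CWQ). Second part: for `u ≠ 0` singular and `x` with `x ⊥ u`, `x ∉ F u`: there is `f₀` with `B(u,f₀) = 1`, `B(x,f₀) = 0`; `f = f₀ + Q(f₀) u` is singular. Third part: two orthogonal hyperbolic pairs: `u, u'` as above, `X = ⟨u,u'⟩^⊥` (dimension `n - 2 ≥ 3`,
nondegenerate) contains a singular `v ≠ 0`, and `v'` with `B(v,v') = 1`, `v' ⊥ u, u'`, singular. -/
def HYP_stmt : Prop := ∀ {F V : Type} [Field F] [Finite F] [AddCommGroup V] [Module F V]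
  [FiniteDimensional F V] (Q : QuadraticForm F V), (2 : F) = 0 → Nd Q → 5 ≤ finrank F V →
  (∀ u x : V, u ≠ 0 → Q u = 0 → pb Q u x = 0 → (∀ c : F, x ≠ c • u) →
    ∃ f, Q f = 0 ∧ pb Q u f = 1 ∧ pb Q x f = 0) ∧
  ∃ u u' v v' : V, Q u = 0 ∧ Q u' = 0 ∧ Q v = 0 ∧ Q v' = 0 ∧ pb Q u u' = 1 ∧ pb Q v v' = 1 ∧
    pb Q u v = 0 ∧ pb Q u v' = 0 ∧ pb Q u' v = 0 ∧ pb Q u' v' = 0

/-- M1 (two long root elements; uses HYP, SGQ). `u, u', v, v'` from HYP, `z = sq u' (s v') * sq u v`. On the plane `⟨u, v'⟩`: `z u = u + s v'`, `z v' = u + (1 + s) v'`: determinant 1, trace `s` (`2 = 0`). `z^i = c` gives `c = 1`, `M^i = 1`, `r ∣ i`. `Gq.mul`: `2 + 2`. -/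
def M1_stmt : Prop := ∀ {F V : Type} [Field F] [Finite F] [AddCommGroup V] [Module F V]
  [FiniteDimensional F V] (Q : QuadraticForm F V), (2 : F) = 0 → Nd Q → 8 ≤ finrank F V →
  ∀ y : Equiv.Perm V, Bl Q y 2 → ∀ (r : ℕ) (s : F), s ≠ 0 → ORT.Dr r s →
  ∃ h ∈ OmQ Q, Gq Q y 4 h ∧ NS F r h

/-- DZ (target of part D, helper83: odd part of the degree at least 3). -/
def DZ_stmt : Prop := ∀ {F V K : Type} [Field F] [Finite F] [AddCommGroup V] [Module F V]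
  [FiniteDimensional F V] [Field K] [Algebra F K] [Finite K] [FiniteDimensional F K]
  (Q : QuadraticForm F V), (2 : F) = 0 → Nd Q → 8 ≤ finrank F V → ∀ k ∈ OQ Q, ∀ (σ : K)
  (j : K →ₗ[F] V), Dq Q k σ j → ∀ r : ℕ, r.Prime → r ≠ 2 → k ^ r = 1 → ∀ d n : ℕ,
  finrank F K = d * n → Odd n → 3 ≤ n → ∀ y : Equiv.Perm V, Bl Q y 2 →
  ∃ h ∈ OmQ Q, Gq Q y (2 * finrank F K) h ∧ NS F r h

/-- EZ (target of part E, helper83: `r = 5`). -/
def EZ_stmt : Prop := ∀ {F V : Type} [Field F] [Finite F] [AddCommGroup V] [Module F V]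
  [FiniteDimensional F V] (Q : QuadraticForm F V), (2 : F) = 0 → Nd Q → 8 ≤ finrank F V →
  ∀ y ∈ OQ Q, ∀ l : ℕ, l.Prime → y ^ l = 1 → y ≠ 1 → (∀ a, y ≠ rq Q a) →
  ∃ h ∈ OmQ Q, Gq Q y 4 h ∧ NS F 5 h

/-! ## B. Two quadratic forms; `r = 3` -/

/-- QZ2 (quadratic forms with `{S = 0} ⊆ {Q = 0}`; uses CWQ). Below singular means `S v = 0`; `s = pb S`, `b = pb Q`. (1) There is a singular `e ≠ 0` (CWQ), `f` with `s(e,f) = 1`, `S f = 0` (correct by a multiple of `e`). (2) If `e ≠ 0` is singular and `s(e,x) = 0` then `b(e,x) = 0`: `f` as in (1), `X = {x | s(x,e) = s(x,f) = 0}`, of dimension `n - 2 ≥ 3`,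
`S` nondegenerate on `X`; `X` contains a singular `e₁ ≠ 0` and `f₁` with `s(e₁,f₁) = 1`, `S f₁ = 0`; for `w ∈ X` orthogonal to `e₁, f₁` the vector `w + e₁ + S(w) f₁` is singular; so `X` is spanned by singular vectors. For `w ∈ X` singular `e + w` is singular, so `0 = Q(e+w) = b(e,w)`. So `b(e,·) = 0` on `X` and at `e`, hence on `{x | s(e,x) = 0} = F e + X`.
So `b(e,x) = m(e) s(e,x)` for all `x`. (3) Fix `e, f, X`, `m = m(e) = b(e,f) = m(f)`. For `w ∈ X`, `x_w = w + e + S(w) f` is singular, `s(x_w,f) = 1`, `m(x_w) = b(x_w,f) = m s(f,x_w) = m`. So `b(x,·) = m s(x,·)` for `x = e, f, x_w`, hence for all `x`. (4) `P = Q - m S` has polar form zero, `P(c v) = c² P(v)`, and vanishes on the singular vectors `e, f, x_w`, which span: `P = 0`. -/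
def QZ2_stmt : Prop := ∀ {F V : Type} [Field F] [Finite F] [AddCommGroup V] [Module F V]
  [FiniteDimensional F V] (Q S : QuadraticForm F V), (2 : F) = 0 → Nd S → 5 ≤ finrank F V →
  (∀ v, S v = 0 → Q v = 0) → ∃ m : F, ∀ v, Q v = m * S v

/-- R3A (order 3 from two conjugates; uses NSV, RP). NSV (`k = 3`): `b` orthogonal to `a, y a, y⁻¹ a` with `Q b = 1`. `t = rq a * rq b`, `z = [y,t] = rq (y a) rq (y b) rq b rq a` (`rq_conj_mem`, `rq_inv`). `b` and `y b` are orthogonal to `a` and `y a`, so on the plane `⟨a, y a⟩`: `z a = rq(y a) a = a + y a`, `z (y a) = rq(y a) (rq a (y a)) = rq(y a)(y a + a) = a`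
(`B(a, y a) = Q a = Q(y a)`). `a, y a` are independent (`B(a,ya) ≠ 0`). `z^i = c` gives `c = 1`; the matrix has order 3: `3 ∣ i`. -/
def R3A_stmt : Prop := ∀ {F V : Type} [Field F] [Finite F] [AddCommGroup V] [Module F V]
  [FiniteDimensional F V] (Q : QuadraticForm F V), (2 : F) = 0 → Nd Q → 8 ≤ finrank F V →
  ∀ y ∈ OQ Q, ∀ a : V, Q a ≠ 0 → pb Q a (y a) = Q a → ∃ z ∈ OmQ Q, Gq Q y 2 z ∧ NS F 3 z

/-- R3B (quadratic `y`; uses CWQ, NSV, SGQ). There is a singular `u` with `y u ∉ F u`: otherwise all singular vectors are eigenvectors; with a hyperbolic pair `e, f` (`Q e = Q f = 0`, `B(e,f) = 1`) and `g ⊥ e, f`, `g ≠ 0`: `e + g + Q(g) f` is singular; as in ORT.SE (Pool/Agent/helper25/ORT/SE.lean) `y` is a scalar, and `y ∈ OQ Q` gives `y = 1`.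
`B(u, y u) = τ Q u = 0`. Polarising: `B(x, y x') + B(x', y x) = τ B(x,x')`. `d₀` with `B(u,d₀) = 0`, `B(y u,d₀) = 1`; NSV (`k = 3`): `x` orthogonal to `u, y u, d₀`, `Q x = 1`; `d = d₀ + s x`, `s² = Q d₀`: `Q d = 0`. `B(u, y d) = B(y u, d) + τ B(u,d) = 1`. `z = [y, sq u d] = sq (y u) (y d) * sq u d` (SGQ, `sq_conj_mem`, `sq_inv`).
`B(u,yu) = B(d,yd) = 0`, `B(u,yd) = B(d,yu) = 1`. On the plane `⟨u, y d⟩`... compute: `sq u d (u) = u`, `sq u d (y u) = y u + B(yu,d) u + B(yu,u) d = y u + u`; `sq (yu) (yd) (u) = u + B(u,yu) y d + B(u,yd) y u = u + y u`, `sq (yu)(yd) (y u) = y u`. So `z u = u + y u`, `z (y u) = y u + (u + y u) = u`: order 3 on the plane `⟨u, y u⟩`. -/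
def R3B_stmt : Prop := ∀ {F V : Type} [Field F] [Finite F] [AddCommGroup V] [Module F V]
  [FiniteDimensional F V] (Q : QuadraticForm F V), (2 : F) = 0 → Nd Q → 8 ≤ finrank F V →
  ∀ y ∈ OQ Q, y ≠ 1 → ∀ τ : F, (∀ v, pb Q v (y v) = τ * Q v) →
  ∃ z ∈ OmQ Q, Gq Q y 2 z ∧ NS F 3 z

/-- R3I (involutions; uses R3A, R3B, NSV). `S(v) = B(v, y v)` is additive (`B(x, y x') = B(y x, x')`), `S(cv) = c² S(v)`. `S = 0`: R3B with `τ = 0`. Otherwise there is `w` with `S(v) = B(v,w)²` (the square root of `S` is linear: `F` is perfect; `B` nondegenerate) and `x` with `S x = 1`. NSV (`k = 2`): `g` orthogonal to `w, x` with `Q g = 1`; `a = x + s g`, `s² = 1 + Q x`: `Q a = 1`,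
`S a = 1`. R3A. -/
def R3I_stmt : Prop := ∀ {F V : Type} [Field F] [Finite F] [AddCommGroup V] [Module F V]
  [FiniteDimensional F V] (Q : QuadraticForm F V), (2 : F) = 0 → Nd Q → 8 ≤ finrank F V →
  ∀ y ∈ OQ Q, y ≠ 1 → y * y = 1 → ∃ z ∈ OmQ Q, Gq Q y 2 z ∧ NS F 3 z

/-- R3O (odd prime order; uses R3A, R3B, QZ2). `V₀ = {v | y v = v}`, `V₁ = V₀^⊥`; `V = V₀ + V₁`, an orthogonal sum of nondegenerate spaces (`v = ∑_{i<l} y^i v + (v - ∑_{i<l} y^i v)` as `l` is odd, `l = 1` in `F`), `y V₁ = V₁`. `S(v) = B(v, y v)`. (a) `V₀ ≠ 0`: `V₀` contains `b` with `Q b ≠ 0` (`B` is nondegenerate on it). There is `a₁ ∈ V₁` with `S a₁ ≠ 0`: otherwise `y + y⁻¹ = 0`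
on `V₁`, `y² = 1`, `y = 1` on `V₁`. `a = a₁ + c b` with `c² Q b = S a₁ + Q a₁`: `S a = S a₁`, `Q a = Q a₁ + c² Q b = S a₁`. R3A. (b) `V₀ = 0`, `l = 3`: `1 + y + y² = 0` on `V` (the image is fixed by `y`), so `S v = B(v, y v) = Q v`: (`Q(v + y v) = Q(y² v) = Q v`, i.e. `Q v + Q v + B(v,yv) = Q v`.) R3A for any nonsingular `a`. (c) `V₀ = 0`, `l ≠ 3`: the quadratic form `S + Q` is
nondegenerate: its polar form is `B(x, (y + y⁻¹ + 1) x')`, and `(y + y⁻¹ + 1) x' = 0` gives `y³ x' = x'`, `y x' = x'` (`3` and `l` coprime), `x' = 0`. If some `a` has `S a = Q a ≠ 0`: R3A. Otherwise QZ2: `Q = m (S + Q)`, `m ≠ 0`, `S = (1/m + 1) Q`: R3B. -/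
def R3O_stmt : Prop := ∀ {F V : Type} [Field F] [Finite F] [AddCommGroup V] [Module F V]
  [FiniteDimensional F V] (Q : QuadraticForm F V), (2 : F) = 0 → Nd Q → 8 ≤ finrank F V →
  ∀ y ∈ OQ Q, y ≠ 1 → ∀ l : ℕ, l.Prime → l ≠ 2 → y ^ l = 1 →
  ∃ z ∈ OmQ Q, Gq Q y 2 z ∧ NS F 3 z

/-! ## C. Long root elements from two conjugates, linear `y` -/

/-- C1 (uses SGQ, BLW). `z = [y, sq u a] = E' E`, `E = sq u a`, `E' = sq (y u) (y a)`. With `e = B(a, y a)`, `z = 1 + N`, `N x = B(x,a) u + B(x,u) a + Q(a) B(x,u) u + (B(x,ya) + e B(x,u)) y u + B(x,yu) y a + Q(a) B(x,yu) y u`; `N u = N (y u) = 0`, `N a = e y u`, `N (y a) = e u`, so `z² = 1 + N²`, `z² = sq u (e • y u)`, a long root element. (`B(ya, u) = B(a, y⁻¹u) = 0`.) `Gq.pow`, BLW. -/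
def C1_stmt : Prop := ∀ {F V : Type} [Field F] [Finite F] [AddCommGroup V] [Module F V]
  [FiniteDimensional F V] (Q : QuadraticForm F V), (2 : F) = 0 → Nd Q → 8 ≤ finrank F V →
  ∀ y ∈ OQ Q, ∀ u a : V, LinearIndependent F ![u, y u] → Q u = 0 → pb Q u (y u) = 0 →
  pb Q (y⁻¹ u) a = 0 → pb Q u a = 0 → pb Q (y u) a = 0 → pb Q a (y a) ≠ 0 → Bl Q y 2

/-- C2 (uses SGQ, BLW). `[y, sq u a] = sq (y u) (y a) * sq u a`, `sq (lam • u) (y a) = sq u (lam • y a)` (formula), `= sq u (lam • y a + a)` (`sq_add`; `B(u, y a) = 0` as `lam B(u,ya) = B(yu,ya) = 0`). -/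
def C2_stmt : Prop := ∀ {F V : Type} [Field F] [Finite F] [AddCommGroup V] [Module F V]
  [FiniteDimensional F V] (Q : QuadraticForm F V), (2 : F) = 0 → Nd Q → 8 ≤ finrank F V →
  ∀ y ∈ OQ Q, ∀ (u a : V) (lam : F), lam ≠ 0 → y u = lam • u → Q u = 0 → pb Q u a = 0 →
  Q (lam • y a + a) = 0 → LinearIndependent F ![u, lam • y a + a] → Bl Q y 2

/-- C3 (`y` of rank two; uses CWQ, HYP, SGQ, BLW). `P = span {p₁, p₂}` is nondegenerate, `R₀ = P^⊥` has dimension `n - 2 ≥ 6`, `y = 1` on `R₀`, `y P = P`. `R₀` contains `r₁, r₂` independent, singular, orthogonal. `t = sq r₁ p₁ * sq r₂ p₂ ∈ OmQ Q`, `z₁ = [y,t] = sq r₁ (y p₁) sq r₂ (y p₂) sq r₂ p₂ sq r₁ p₁`, `z₂ = y z₁ y⁻¹`; both are in the group generated by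
`y` and `t y t⁻¹`, so `Gq Q y 2 [z₁,z₂]`. Commutators: `sq r₁ a` commutes with `sq r₁ b`; for `a, b ∈ P`: `[sq r₁ a, sq r₂ b] = sq r₁ (B(a,b) r₂)`, which commutes with all of them. So `[z₁,z₂] = sq r₁ (δ r₂)`, `δ = B(p₁', y p₂') + B(p₂', y p₁')`, `p_i' = y p_i + p_i`, `δ = B(p₁', (y + y⁻¹) p₂') = τ B(p₁',p₂')`, `B(p₁',p₂') = B(p₁, (y + y⁻¹) p₂) = τ B(p₁,p₂)`
(`B((y+1)a,(y+1)b) = B(a,(y⁻¹+1)(y+1)b) = B(a,(y+y⁻¹)b)`). `δ = τ² B(p₁,p₂) ≠ 0`. (The formula can be verified by writing all maps on `x`; all of them are the identity modulo `⟨r₁,r₂,P⟩`.) -/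
def C3_stmt : Prop := ∀ {F V : Type} [Field F] [Finite F] [AddCommGroup V] [Module F V]
  [FiniteDimensional F V] (Q : QuadraticForm F V), (2 : F) = 0 → Nd Q → 8 ≤ finrank F V →
  ∀ y ∈ OQ Q, ∀ (p₁ p₂ : V) (τ : F), pb Q p₁ p₂ ≠ 0 → τ ≠ 0 →
  (∀ x, pb Q x p₁ = 0 → pb Q x p₂ = 0 → y x = x) → y p₁ + y⁻¹ p₁ = τ • p₁ →
  y p₂ + y⁻¹ p₂ = τ • p₂ → Bl Q y 2

/-- L2 (involutions; uses C2, CWQ). `W = im (y + 1)` (as a linear map), `W^⊥ = ker (y + 1)`, `W ⊆ W^⊥`: `B(yx + x, yx' + x') = 2(..) = 0`. `dim W = 0`: `y = 1`. `dim W = 1`: `y x = x + φ(x) a`, `a ≠ 0`, `Q(y x) = Q x`: `φ(x) (B(x,a) + φ(x) Q(a)) = 0`; if `Q a = 0` then `B(x,a) = 0` whenever `φ(x) ≠ 0`, so for all `x` (the complement of a hyperplane spans), contradiction;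
so `φ(x) = B(x,a)/Q(a)` for `φ(x) ≠ 0`, hence for all `x`: `y = rq Q a`, excluded. So `dim W ≥ 2`. `Q` is additive on `W` and `Q(cw) = c² Q(w)`: the singular vectors of `W` form a subspace `W₁` of codimension at most 1 in `W`; `w = y a + a ∈ W₁`, `w ≠ 0`. `B(w,a) = B(ya,a) = Q(ya + a) = 0`. We need a singular `u ∈ W^⊥ ∩ a^⊥`, `u ∉ F w` (C2 with `lam = 1`).
`dim W ≥ 4`: `W₁ ∩ a^⊥` has dimension at least 2. `dim W ≤ 3`: `W^⊥ ∩ a^⊥` has dimension at least `n - 4 ≥ 4`; a complement of `F w` in it has dimension at least 3: CWQ. -/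
def L2_stmt : Prop := ∀ {F V : Type} [Field F] [Finite F] [AddCommGroup V] [Module F V]
  [FiniteDimensional F V] (Q : QuadraticForm F V), (2 : F) = 0 → Nd Q → 8 ≤ finrank F V →
  ∀ y ∈ OQ Q, y ≠ 1 → y * y = 1 → (∀ a, y ≠ rq Q a) → Bl Q y 2

/-- O1 (a fixed singular vector; uses C2, C3, CWQ). `l` odd; `V₀`, `V₁` as in R3O. `u ∈ V₀` singular. If `a ∈ V₁`, `a ≠ 0`, `B(a, y a) = 0`: C2 with `lam = 1`: `w = y a + a ∈ V₁`, `w ≠ 0`, `Q w = B(a, y a) = 0`, `B(u,a) = 0`, `u, w` independent (`V₀ ∩ V₁ = 0`). Otherwise the quadratic form `qy` has no zero in `V₁`, `dim V₁ ≤ 2` (CWQ), so `dim V₁ = 2` (`B` is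
alternating and nondegenerate on `V₁ ≠ 0`). `s = y + y⁻¹`: `B(x, s x) = 0`, so on the plane `V₁ = ⟨p₁,p₂⟩`, `B(p₁,p₂) ≠ 0`: `s p ∈ F p` for all `p ∈ V₁`, `s = τ` on `V₁`, `τ ≠ 0` (otherwise `y² = 1`, `y = 1` on `V₁`). C3 (a vector orthogonal to `p₁, p₂` is in `V₁^⊥ = V₀`). -/
def O1_stmt : Prop := ∀ {F V : Type} [Field F] [Finite F] [AddCommGroup V] [Module F V]
  [FiniteDimensional F V] (Q : QuadraticForm F V), (2 : F) = 0 → Nd Q → 8 ≤ finrank F V →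
  ∀ y ∈ OQ Q, y ≠ 1 → ∀ l : ℕ, Odd l → y ^ l = 1 → ∀ u : V, u ≠ 0 → Q u = 0 → y u = u →
  Bl Q y 2

/-- O3 (an eigenvector with eigenvalue `lam ≠ 1`; uses C2, CWQ). `lam ≠ 0`, `Q u = Q(y u) = lam² Q u`, so `Q u = 0`; `lam^l = 1`. `v` with `B(u,v) = 1`, `f = ∑_{i<l} lam^i y^i v`: `y f = lam⁻¹ f`, `B(u,f) = ∑ lam^i B(y^(-i) u, v) = l = 1`. `Q f = 0`. `X = ⟨u,f⟩^⊥` is nondegenerate, of dimension `n - 2`, `y X = X`. `M = lam y + 1` maps `X` to `X`; `ker M ∩ X` consists of eigenvectors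
for `lam⁻¹`, which are singular and orthogonal to each other (`B(yx,yx') = lam⁻² B(x,x')`), so its dimension is at most `(n-2)/2` and `dim M X ≥ (n-2)/2 ≥ 3`: CWQ: a singular `w = lam y a + a ≠ 0` in `M X ⊆ X`, `a ∈ X`. `u, w` are independent (`u ∉ X`). C2. -/
def O3_stmt : Prop := ∀ {F V : Type} [Field F] [Finite F] [AddCommGroup V] [Module F V]
  [FiniteDimensional F V] (Q : QuadraticForm F V), (2 : F) = 0 → Nd Q → 8 ≤ finrank F V →
  ∀ y ∈ OQ Q, ∀ l : ℕ, Odd l → y ^ l = 1 → ∀ (u : V) (lam : F), u ≠ 0 → lam ≠ 1 →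
  y u = lam • u → Bl Q y 2

/-- O4 (uses C1, CWQ, QZ2). `S(v) = B(v, y v)`, `s = y + y⁻¹`, polar form of `S`: `B(x, s x')`. `V₀`, `V₁` as in R3O; `ker s = V₀` (`s x = 0` gives `y² x = x`, `y x = x`); `dim V₀ ≤ 2` (CWQ; its singular vectors are 0). (i) Let `u ≠ 0`, `Q u = S u = 0`. `u ∉ V₀`, so `y u ∉ F u` (hypotheses). `Y = ⟨y⁻¹u, u, yu⟩^⊥`, `δ = dim ⟨y⁻¹u, u, yu⟩ = n - dim Y`. If `S(a) ≠ 0` for some `a ∈ Y`: C1.
Otherwise `s Y ⊆ Y^⊥`, `n - δ - dim(Y ∩ V₀) ≤ δ`, so `δ = 3`, `n = 8`, `dim (Y ∩ V₀) = 2 = dim V₀`, `V₀ ⊆ Y`, `u ∈ V₀^⊥ = V₁`. So C1 applies if `δ ≤ 2` or if `V₀ = 0` or if `u ∉ V₁`. If `V₀ = 0` CWQ gives `u`. (ii) Let `V₀ ≠ 0`, so `V₀` contains `b` with `Q b ≠ 0`, and assume that every `u ≠ 0` with `Q u = S u = 0` is in `V₁`. For `z ∈ V₁` with `S z = 0` we have `Q z = 0`: otherwise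
`u = c b + z`, `c² Q b = Q z`, has `Q u = 0`, `S u = S z = 0`, `u ∉ V₁`. `S` is nondegenerate on `V₁` (`s` is injective on `V₁` and self-adjoint), `dim V₁ ≥ 6`: QZ2 for the restrictions to `V₁`: `Q = m S` on `V₁`, `m ≠ 0`, so `s = τ = 1/m` on `V₁`. Take `u ∈ V₁`, `u ≠ 0`, `Q u = 0` (CWQ): `S u = 0`, `y⁻¹ u = τ u + y u`, so `δ = 2`: C1. -/
def O4_stmt : Prop := ∀ {F V : Type} [Field F] [Finite F] [AddCommGroup V] [Module F V]
  [FiniteDimensional F V] (Q : QuadraticForm F V), (2 : F) = 0 → Nd Q → 8 ≤ finrank F V →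
  ∀ y ∈ OQ Q, y ≠ 1 → ∀ l : ℕ, Odd l → y ^ l = 1 → (∀ u : V, y u = u → Q u = 0 → u = 0) →
  (∀ (u : V) (lam : F), u ≠ 0 → y u = lam • u → lam = 1) → Bl Q y 2

/-- LRL (uses L2, O1, O3, O4). `l = 2`: L2. `l` odd: O3 if there is an eigenvector with eigenvalue `≠ 1`; O1 if there is a fixed singular vector `≠ 0`; otherwise O4. -/
def LRL_stmt : Prop := ∀ {F V : Type} [Field F] [Finite F] [AddCommGroup V] [Module F V]
  [FiniteDimensional F V] (Q : QuadraticForm F V), (2 : F) = 0 → Nd Q → 8 ≤ finrank F V →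
  ∀ y ∈ OQ Q, ∀ l : ℕ, l.Prime → y ^ l = 1 → y ≠ 1 → (∀ a, y ≠ rq Q a) → Bl Q y 2

/-! ## F. Semilinear `y` -/

/-- Two orthogonal hyperbolic pairs of vectors fixed by a multiple of `y`. -/
def Duq {F V : Type} [Field F] [AddCommGroup V] [Module F V] (Q : QuadraticForm F V)
    (y : Equiv.Perm V) : Prop :=
  ∃ (lam μ : F) (e f : Fin 2 → V), lam ≠ 0 ∧ μ ≠ 0 ∧
    (∀ i, lam • y (e i) = e i ∧ lam • y (f i) = f i) ∧ (∀ i, Q (e i) = 0 ∧ Q (f i) = 0) ∧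
    ∀ i j, pb Q (e i) (e j) = 0 ∧ pb Q (f i) (f j) = 0 ∧ pb Q (e i) (f j) = if i = j then μ else 0

/-- DQ1 (one more hyperbolic pair of fixed vectors; uses GS.DS2). For fixed `u, v`: `B u v = ν ψ(B u v)`, `Q v = ν ψ(Q v)`; as `μ = ν ψ(μ) ≠ 0`, `B u v / μ` and `Q v / μ` are in the fixed field `F₀` of `ψ`. `P w = w - ∑ (B w f_i / μ) e_i - ∑ (B w e_i / μ) f_i` maps fixed vectors to fixed vectors, orthogonal to all `e_i, f_i`, and by DS2 the `P w`, `w` fixed, span the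
orthogonal complement `W` of the `e_i, f_i`, of dimension `≥ n - 2k ≥ 3`, on which `B` is nondegenerate. Take a fixed `g₁ ∈ W`, `g₁ ≠ 0`; a fixed `h₀ ∈ W` with `B(g₁,h₀) ≠ 0`; a fixed `h ∈ W` not in the span of `g₁, h₀`, `g₂ = h - (B(g₁,h)/B(g₁,h₀)) h₀`: fixed, orthogonal to `g₁`, not in `F g₁`. If `Q g₁ = 0` let `e' = g₁`; otherwise `α² = Q g₂ / Q g₁` with `α ∈ F₀`
(the square root in `F` of an element of `F₀` is in `F₀`: `ψ(α)² = α²` gives `ψ(α) = α` in characteristic two), `e' = α g₁ + g₂`: fixed, `≠ 0`, `Q e' = 2 Q g₂ = 0`. There is a fixed `u ∈ W` with `b = B(e',u) ≠ 0`; `f' = (μ/b) (u + (Q u / b) e')`. -/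
def DQ1_stmt : Prop := ∀ {F V : Type} [Field F] [Finite F] [AddCommGroup V] [Module F V]
  [FiniteDimensional F V] (Q : QuadraticForm F V), (2 : F) = 0 → Nd Q →
  ∀ (y : Equiv.Perm V) (ψ : F ≃+* F) (ν : F), QSim Q y ψ ν →
  ∀ l : ℕ, l.Prime → (∃ x, ψ x ≠ x) → (∀ x, (⇑ψ)^[l] x = x) → (∀ v, (y ^ l) v = v) →
  ∀ (μ : F), μ ≠ 0 → μ = ν * ψ μ → ∀ (k : ℕ) (e f : Fin k → V), 2 * k + 3 ≤ finrank F V →
  (∀ i, y (e i) = e i ∧ y (f i) = f i) → (∀ i, Q (e i) = 0 ∧ Q (f i) = 0) →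
  (∀ i j, pb Q (e i) (e j) = 0 ∧ pb Q (f i) (f j) = 0 ∧
    pb Q (e i) (f j) = if i = j then μ else 0) →
  ∃ e' f' : V, y e' = e' ∧ y f' = f' ∧ Q e' = 0 ∧ Q f' = 0 ∧ pb Q e' f' = μ ∧
    ∀ i, pb Q e' (e i) = 0 ∧ pb Q e' (f i) = 0 ∧ pb Q f' (e i) = 0 ∧ pb Q f' (f i) = 0

/-- DQ2 (uses GS.DS1, GS.DS2, DQ1). As ORT.DSO (Pool/Agent/helper10/ORT/DSO.lean). -/
def DQ2_stmt : Prop := ∀ {F V : Type} [Field F] [Finite F] [AddCommGroup V] [Module F V]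
  [FiniteDimensional F V] (Q : QuadraticForm F V), (2 : F) = 0 → Nd Q → 8 ≤ finrank F V →
  ∀ (y : Equiv.Perm V) (ψ : F ≃+* F) (ν : F), QSim Q y ψ ν → (∃ x, ψ x ≠ x) →
  ∀ (l : ℕ) (κ : F), l.Prime → κ ≠ 0 → (∀ v, (y ^ l) v = κ • v) →
  Duq Q y ∧ ∀ x, (⇑ψ)^[l] x = x

/-- SLQ (uses SGQ, BLW, PEW). `u = e_0`; `a` with `lam • y a = a`, `B(u,a) = 0`. `B(y e_i, y f_i) = lam⁻² μ = ν ψ(μ)`. `t = sq u ((X/μ) a)`, `y t y⁻¹ = sq (y u) (ν⁻¹ • y((X/μ) a)) = sq (lam⁻¹ u) (ν⁻¹ ψ(X)/ψ(μ) lam⁻¹ a) = sq u ((ψ(X)/μ) a)` (`sq (c u) d = sq u (c d)`), `[y,t] = sq u (((ψ(X) + X)/μ) a)`. Choose `X` with `ψ X ≠ X`. `a = e_1`: a long root element, BLW.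
`a = e_1 + f_1`, `Q a = μ ≠ 0`: `sq_eq_rq`, PEW (`B(d, d + Q(d) u) = 0`, independent). -/
def SLQ_stmt : Prop := ∀ {F V : Type} [Field F] [Finite F] [AddCommGroup V] [Module F V]
  [FiniteDimensional F V] (Q : QuadraticForm F V), (2 : F) = 0 → Nd Q → 8 ≤ finrank F V →
  ∀ (y : Equiv.Perm V) (ψ : F ≃+* F) (ν : F), QSim Q y ψ ν → (∃ x, ψ x ≠ x) → Duq Q y →
  Bl Q y 2 ∧ Bc Q y 2 2

/-- S3Q (`r = 3`; uses SGQ, ORT.NRX). As ORT.SMT (Pool/Agent/helper49/ORT/SMT.lean): `ω = ψ(κ) + κ ≠ 0`, `v = e_0 + κ e_1`, `v₁ = e_0 + ψ(κ) e_1 = lam y v`, `d = (X/μ) (f_1 + κ f_0)`: `Q v = Q d = 0`, `B(v,d) = 0`. `[y, sq v d] v = v + ψ(X) ω v₁`, `[y, sq v d] v₁ = X ω v + (1 + X ψ(X) ω²) v₁`. We want `X ψ(X) ω² = 1`: `l = 2`: `ψ(ω) = ω`, ORT.NRX first part for `ω⁻²`;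
`l` odd: ORT.NRX second part with `s = ω⁻¹`. The matrix `M` has determinant 1 and trace 1, `M² + M + 1 = 0`, order 3 (`M ≠ 1`). -/
def S3Q_stmt : Prop := ∀ {F V : Type} [Field F] [Finite F] [AddCommGroup V] [Module F V]
  [FiniteDimensional F V] (Q : QuadraticForm F V), (2 : F) = 0 → Nd Q → 8 ≤ finrank F V →
  ∀ (y : Equiv.Perm V) (ψ : F ≃+* F) (ν : F), QSim Q y ψ ν → (∃ x, ψ x ≠ x) → Duq Q y →
  ∀ l : ℕ, l.Prime → (∀ x, (⇑ψ)^[l] x = x) → ∃ z ∈ OmQ Q, Gq Q y 2 z ∧ NS F 3 z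

/-! ## H. Conclusions -/

/-- SCL (scaling of linear `y`). `c² = ν⁻¹`, `y₁ = sc c * y ∈ OQ Q`. `y₁^l = c^l κ` is a scalar in `OQ Q`, so it is 1. `y₁ ≠ 1` (`NSc`). If `sc c' * z` is in the group generated by the `g_i y₁ g_i⁻¹ = sc c * (g_i y g_i⁻¹)` then a scalar multiple of it is in the group generated by the `g_i y g_i⁻¹` (scalars commute with linear maps; `Subgroup.closure_induction` for the
property: some `sc c'' * x` is in the second group, `x` linear). -/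
def SCL_stmt : Prop := ∀ {F V : Type} [Field F] [Finite F] [AddCommGroup V] [Module F V]
  [FiniteDimensional F V] (Q : QuadraticForm F V), (2 : F) = 0 → Nd Q → 8 ≤ finrank F V →
  ∀ (y : Equiv.Perm V) (ν : F), QSim Q y (RingEquiv.refl F) ν → NSc F y →
  ∀ (l : ℕ) (κ : F), l.Prime → (∀ v, (y ^ l) v = κ • v) →
  ∃ y₁ ∈ OQ Q, y₁ ^ l = 1 ∧ y₁ ≠ 1 ∧ ∀ (k : ℕ) (z : Equiv.Perm V), Gq Q y₁ k z → Gq Q y k z

/-- MPL (linear `y`; uses TVW, ATV, R3I, R3O, KDQ, DRK, M1, DZ, FER, EZ, LRL, BLC, AEV). KDQ: `K`, `m = finrank F K`, `2m ≤ r - 1`. `y = rq a` (then `Q a ≠ 0` as `y ≠ 1`): `Gq.self`, TVW, ATV. Otherwise: `r = 3`: R3I or R3O. `r ≥ 5`: LRL. `m = 1`: DRK, M1 (`4 ≤ r - 1`). `m` has an odd divisor `n ≥ 3`: DZ. Otherwise `m = 2^a`, `a ≥ 1` (`Nat.exists_eq_two_pow_mul_odd`): FER: `r = 5`: EZ;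
`4m ≤ r - 1`: BLC (`c = 2`), AEV (`c = 4`). `Gq.mono`. -/
def MPL_stmt : Prop := ∀ {F V : Type} [Field F] [Finite F] [AddCommGroup V] [Module F V]
  [FiniteDimensional F V] (Q : QuadraticForm F V), (2 : F) = 0 → Nd Q → 8 ≤ finrank F V →
  ∀ y ∈ OQ Q, ∀ l : ℕ, l.Prime → y ^ l = 1 → y ≠ 1 →
  ∀ k ∈ OQ Q, ∀ r : ℕ, r.Prime → r ≠ 2 → k ^ r = 1 → k ≠ 1 →
  ∃ z ∈ OmQ Q, Gq Q y (r - 1) z ∧ NS F r z

/-- MPS (semilinear `y`; uses DQ2, SLQ, S3Q, KDQ, DRK, M1, DZ, AEV). `r = 3`: S3Q. `r ≥ 5`: SLQ; `m = 1`: DRK, M1; an odd divisor `n ≥ 3`: DZ; otherwise `m = 2^a` is even: AEV with `c = 2`. -/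
def MPS_stmt : Prop := ∀ {F V : Type} [Field F] [Finite F] [AddCommGroup V] [Module F V]
  [FiniteDimensional F V] (Q : QuadraticForm F V), (2 : F) = 0 → Nd Q → 8 ≤ finrank F V →
  ∀ (y : Equiv.Perm V) (ψ : F ≃+* F) (ν : F), QSim Q y ψ ν → (∃ x, ψ x ≠ x) →
  ∀ (l : ℕ) (κ : F), l.Prime → κ ≠ 0 → (∀ v, (y ^ l) v = κ • v) →
  ∀ k ∈ OQ Q, ∀ r : ℕ, r.Prime → r ≠ 2 → k ^ r = 1 → k ≠ 1 →
  ∃ z ∈ OmQ Q, Gq Q y (r - 1) z ∧ NS F r z

/-- MN (uses SCL, MPL, MPS, GS.PO). GS.PO for `B = pb Q` (`QSim.sim`): `j, l, κ` with `y^j` not a scalar, `(y^j)^l = κ`. The powers of `y` are in `QSim` (induction). `y^j` with `ψ' = 1` (all `x` fixed): SCL, MPL; otherwise MPS. `Gq.of_pow`. -/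
def MN_stmt : Prop := ∀ {F V : Type} [Field F] [Finite F] [AddCommGroup V] [Module F V]
  [FiniteDimensional F V] (Q : QuadraticForm F V), (2 : F) = 0 → Nd Q → 8 ≤ finrank F V →
  ∀ (y : Equiv.Perm V) (ψ : F ≃+* F) (ν : F), QSim Q y ψ ν → NSc F y →
  ∀ r : ℕ, r.Prime → r ≠ 2 → (∃ k ∈ OmQ Q, k ≠ 1 ∧ k ^ r = 1) →
  ∃ z ∈ OmQ Q, Gq Q y (r - 1) z ∧ NS F r z

/-- CNO (centralisers; uses RP, NSV). Let `Q a ≠ 0`, `Q b ≠ 0`, `g = rq a * rq b ∈ OmQ Q` (RP). `z g z⁻¹ = rq(za) rq(zb) = c g`. Both fix all vectors orthogonal to `a, b, za, zb`, so `c = 1` (`n ≥ 5`). `(g - 1) V ⊆ ⟨a,b⟩`, with equality if `a, b` are independent (the functionals `B(·,a)`, `B(·,b)` are independent). So `⟨za,zb⟩ = ⟨a,b⟩`. For given nonsingular `a`: two such `b, b'` with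
`a, b, b'` independent (NSV: `b ⊥ a`, then replace by..; e.g. `b` nonsingular not in `F a`, `b'` nonsingular not in `⟨a,b⟩`: nonsingular vectors span `V`): `z a ∈ ⟨a,b⟩ ∩ ⟨a,b'⟩ = F a`, `z a = c a`, `Q(za) = Q a`, `c = 1`. So `z` fixes all nonsingular vectors; they span `V` (for singular `v` and `g ⊥ v` with `Q g = 1`: `v = (v + g) + g`). -/
def CNO_stmt : Prop := ∀ {F V : Type} [Field F] [Finite F] [AddCommGroup V] [Module F V]
  [FiniteDimensional F V] (Q : QuadraticForm F V), (2 : F) = 0 → Nd Q → 8 ≤ finrank F V →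
  ∀ z ∈ OQ Q, (∀ g ∈ OmQ Q, ∃ c : F, ∀ v, (z * g * z⁻¹ * g⁻¹) v = c • v) → z = 1

/-- FG (from `Gq`, `NS` to `GenDvd`; uses CNO, GS.AD). As ORT.FG (Pool/Agent/helper76/ORT/FG.lean), with `Om B` replaced by `OmQ Q`; `y` normalises `OQ Q` (`y g y⁻¹` is linear and preserves `Q`: `Q(y g y⁻¹ v) = ν ψ(Q(y⁻¹ v)) = Q v`; also `y⁻¹`) and hence `OmQ Q`. -/
def FG_stmt : Prop := ∀ {F V : Type} [Field F] [Finite F] [AddCommGroup V] [Module F V]
  [FiniteDimensional F V] (Q : QuadraticForm F V), (2 : F) = 0 → Nd Q → 8 ≤ finrank F V →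
  ∀ x : MulAut (POmQ Q), ∀ (y : Equiv.Perm V) (ψ : F ≃+* F) (ν : F), QSim Q y ψ ν →
  (∀ g h : OmQ Q, (h : Equiv.Perm V) = y * g * y⁻¹ →
    x (QuotientGroup.mk g) = QuotientGroup.mk h) →
  (x ≠ 1 → NSc F y) ∧ ∀ (r k : ℕ) (z : Equiv.Perm V), z ∈ OmQ Q → Gq Q y k z → NS F r z →
    GenDvd r k x

/-- PRO (Cauchy). As ORT.PRO (Pool/Agent/helper37/ORT/PRO.lean). -/
def PRO_stmt : Prop := ∀ {F V : Type} [Field F] [Finite F] [AddCommGroup V] [Module F V]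
  [FiniteDimensional F V] (Q : QuadraticForm F V) (r : ℕ), r.Prime →
  r ∣ Nat.card (POmQ Q) → ∃ k ∈ OmQ Q, k ≠ 1 ∧ k ^ r = 1

/-- LRB (lower bound for transvections). As ORT.LRB (Pool/Agent/helper71/ORT/LRB.lean): the group generated by the `rq (g_i a)` fixes all vectors orthogonal to the `g_i a`. -/
def LRB_stmt : Prop := ∀ {F V : Type} [Field F] [Finite F] [AddCommGroup V] [Module F V]
  [FiniteDimensional F V] (Q : QuadraticForm F V), (2 : F) = 0 → Nd Q →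
  ∀ (a : V) (k : ℕ) (g : Fin k → Equiv.Perm V), (∀ i, g i ∈ OQ Q) → ∀ r : ℕ, r.Prime →
  ¬ r ∣ Nat.card F → r ∣ Nat.card (Subgroup.closure (Set.range fun i => g i * rq Q a * (g i)⁻¹)) →
  ∃ i, 1 ≤ i ∧ i ≤ k ∧ r ∣ Nat.card F ^ i - 1

/-- FRO (the automorphism of a transvection; uses CNO, LRB, NSV, GS.AD). As ORT.FRO (Pool/Agent/helper70/ORT/FRO.lean), with `y = rq Q a`, `Q a = 1` (NSV with `k = 0`). -/
def FRO_stmt : Prop := ∀ {F V : Type} [Field F] [Finite F] [AddCommGroup V] [Module F V]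
  [FiniteDimensional F V] (Q : QuadraticForm F V), (2 : F) = 0 → Nd Q → 8 ≤ finrank F V →
  ∃ x : MulAut (POmQ Q), IsPGammaOQ Q x ∧ orderOf x = 2 ∧
  ∀ k r : ℕ, r.Prime → ¬ r ∣ Nat.card F → GenDvd r k x →
    ∃ i, 1 ≤ i ∧ i ≤ k ∧ r ∣ Nat.card F ^ i - 1

/-- FIN (the result in characteristic two; uses MN, FG, PRO, FRO, GS.BE). As ORT.FIN (Pool/Agent/helper39/ORT/FIN.lean). The dimension is even (`pb Q` is alternating and nondegenerate; GS.SB or `LinearMap.BilinForm` even rank), so `7 ≤ n` gives `8 ≤ n`; here `8 ≤ n` is assumed. -/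
def FIN_stmt : Prop := ∀ {F V : Type} [Field F] [Finite F] [AddCommGroup V] [Module F V]
  [FiniteDimensional F V] (Q : QuadraticForm F V), (2 : F) = 0 → Nd Q → 8 ≤ finrank F V →
  (∀ x : MulAut (POmQ Q), IsPGammaOQ Q x → x ≠ 1 → ∀ r : ℕ, r.Prime → r ≠ 2 →
    r ∣ Nat.card (POmQ Q) → ∃ β, IsLeast (CSet r x) β ∧ β ≤ r - 1) ∧
  ∃ x : MulAut (POmQ Q), IsPGammaOQ Q x ∧ orderOf x = 2 ∧
    ∀ r : ℕ, r.Prime → r ≠ 2 → r ∣ Nat.card (POmQ Q) → ¬ r ∣ Nat.card F →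
      (∀ i, 1 ≤ i → i < r - 1 → ¬ r ∣ Nat.card F ^ i - 1) → IsLeast (CSet r x) (r - 1)

/-- ALL (all characteristics; uses FIN, ORT.FIN). Characteristic two: `dim V` is even (`pb Q` is alternating and nondegenerate: GS.SB_stmt, Pool/Agent/helper24/GS/SB.lean, or the determinant of an alternating matrix), so `8 ≤ n`: FIN. Otherwise `2 ≠ 0`, `2 Q v = pb Q v v`: `SpG (pb Q) = OQ Q`, `ORT.Om (pb Q) = OmQ Q` (rewrite), `Sym (pb Q)`, `Sim (pb Q) y ψ ν ↔ QSim Q y ψ ν`: ORT.FIN. -/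
def ALL_stmt : Prop := ∀ {F V : Type} [Field F] [Finite F] [AddCommGroup V] [Module F V]
  [FiniteDimensional F V] (Q : QuadraticForm F V), Nd Q → 7 ≤ finrank F V →
  (∀ x : MulAut (POmQ Q), IsPGammaOQ Q x → x ≠ 1 → ∀ r : ℕ, r.Prime → r ≠ 2 →
    r ∣ Nat.card (POmQ Q) → ∃ β, IsLeast (CSet r x) β ∧ β ≤ r - 1) ∧
  ∃ x : MulAut (POmQ Q), IsPGammaOQ Q x ∧ orderOf x = 2 ∧
    ∀ r : ℕ, r.Prime → r ≠ 2 → r ∣ Nat.card (POmQ Q) → ¬ r ∣ Nat.card F →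
      (∀ i, 1 ≤ i → i < r - 1 → ¬ r ∣ Nat.card F ^ i - 1) → IsLeast (CSet r x) (r - 1)

end

end Pool.Agent.ORE
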